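import Mathlib
import Pool.Agent.TH539.MQRatio
import Pool.Agent.TH551.SU.WT

set_option autoImplicit false

/-!
# Multiplicative identities between short sums of S-units lift to polynomials

If `x y = z w` for four sums of `k` terms `c u` with `u` an `S`-unit and `c` of height at most `h`
then there are bounded weights such that the identity holds for the polynomials
`∑ c_j u_j T ^ (l_j)`, and units with the same weight have a ratio of height at most `C h ^ C`.
-/

namespace Pool.Agent.K3h55.DU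

open Filter Topology Pool.Agent.TH932.Germs Pool.Agent.TH551.SU Pool.Agent.TH551.SU.SUI
  Pool.Agent.TH551.SU.CS Pool.Agent.TH551.SU.WT Pool.Agent.TH539.MQ

/-- the polynomial of a short sum with weights -/
noncomputable def pol {k : ℕ} (X u : Fin k → ℚ) (l : Fin k → ℕ) : Polynomial ℚ :=
  ∑ j, Polynomial.C (X j * u j) * Polynomial.X ^ (l j)

lemma pol_eval_one {k : ℕ} (X u : Fin k → ℚ) (l : Fin k → ℕ) :
    (pol X u l).eval 1 = ∑ j, X j * u j := by
  unfold pol
  rw [Polynomial.eval_finsetSum]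
  exact Finset.sum_congr rfl fun j _ => by simp

lemma wt_pairs {L : ℕ → ℝ} (hL : Tendsto L atTop atTop) {J : Type} [Fintype J] (U : J → GG)
    (hU : ∀ j, U j ≠ 0) : ∃ l : J → ℕ,
      (∀ a b c d : J, (U a * U b) / (U c * U d) ∈ KK L hL → l a + l b = l c + l d) ∧
      ∀ a b, l a = l b → U a / U b ∈ KK L hL := by
  classical
  let e := Fintype.equivFin J
  obtain ⟨l, h1, h2⟩ := wt L hL (Fintype.card J) (fun t => U (e.symm t)) (fun t => hU _)
  have key : ∀ (a b : J) (f : Fin (Fintype.card J) → ℕ),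
      f = (fun t => (if t = e a then 1 else 0) + (if t = e b then 1 else 0)) →
      ∑ t, f t = 2 ∧ ∏ t, (U (e.symm t)) ^ (f t) = U a * U b ∧
      ∑ t, f t * l t = l (e a) + l (e b) := by
    rintro a b f rfl
    refine ⟨?_, ?_, ?_⟩
    · rw [Finset.sum_add_distrib]; simp
    · simp_rw [pow_add]
      rw [Finset.prod_mul_distrib]
      simp [Finset.prod_ite_eq', pow_ite]
    · simp_rw [add_mul]
      rw [Finset.sum_add_distrib]
      simp
  refine ⟨fun j => l (e j), ?_, ?_⟩
  · intro a b c d h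
    obtain ⟨k1, k2, k3⟩ := key a b _ rfl
    obtain ⟨k4, k5, k6⟩ := key c d _ rfl
    have h3 := h1 _ _ (k1.trans k4.symm) (by rw [k2, k5]; exact h)
    rw [k3, k6] at h3
    exact h3
  · intro a b h
    have := h2 (e a) (e b) h
    simpa using this

theorem lift {s : ℕ} (b : Fin s → ℕ) (hb : ∀ v, (b v).Prime) (hbi : Function.Injective b) (k : ℕ) :
    ∃ C : ℕ, ∀ h : ℕ, 1 ≤ h → ∀ X u : Fin 4 → Fin k → ℚ, (∀ i j, X i j ∈ box h) →
      (∀ i j, IsSU b (u i j)) →
      (∑ j, X 0 j * u 0 j) * (∑ j, X 1 j * u 1 j) =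
        (∑ j, X 2 j * u 2 j) * (∑ j, X 3 j * u 3 j) →
      ∃ l : Fin 4 → Fin k → ℕ, (∀ i j, l i j ≤ C) ∧
        pol (X 0) (u 0) (l 0) * pol (X 1) (u 1) (l 1) =
          pol (X 2) (u 2) (l 2) * pol (X 3) (u 3) (l 3) ∧
        ∀ i j j', l i j = l i j' → u i j / u i j' ∈ box (C * h ^ C) := by
  classical
  by_contra hcon
  push Not at hcon
  choose h hh X u hX hu hrel hbad using fun n : ℕ => hcon (n + 1)
  let L : ℕ → ℝ := fun n => Real.log (((n + 1 : ℕ) : ℝ) * (h n : ℝ) ^ (n + 1))
  have hh1 : ∀ n, (1 : ℝ) ≤ h n := fun n => by exact_mod_cast hh n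
  have hLe : ∀ n, L n = Real.log ((n + 1 : ℕ) : ℝ) + (n + 1 : ℕ) * Real.log (h n) := by
    intro n
    simp only [L]
    rw [Real.log_mul (by positivity) (by have := hh1 n; positivity), Real.log_pow]
  have hlh : ∀ n, 0 ≤ Real.log (h n) := fun n => Real.log_nonneg (hh1 n)
  have hL : Tendsto L atTop atTop := by
    have h1 : Tendsto (fun n : ℕ => Real.log ((n + 1 : ℕ) : ℝ)) atTop atTop :=
      (Real.tendsto_log_atTop.comp tendsto_natCast_atTop_atTop).comp (tendsto_add_atTop_nat 1)
    refine tendsto_atTop_mono (fun n => ?_) h1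
    rw [hLe]
    have := hlh n
    have h2 : (0 : ℝ) ≤ ((n + 1 : ℕ) : ℝ) * Real.log (h n) := by positivity
    linarith
  have hexp : ∀ n, Real.exp (L n) = ((n + 1 : ℕ) : ℝ) * (h n : ℝ) ^ (n + 1) := by
    intro n
    simp only [L]
    exact Real.exp_log (by have := hh1 n; positivity)
  have hbig : ∀ ε : ℝ, 0 < ε → ∀ᶠ n : ℕ in (UU : Filter ℕ), (h n : ℝ) ≤ Real.exp (ε * L n) := by
    intro ε hε
    apply ev_of_atTop
    obtain ⟨N, hN⟩ := exists_nat_gt (1 / ε)
    filter_upwards [eventually_ge_atTop N] with n hn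
    have h1 : (1 : ℝ) ≤ ε * ((n + 1 : ℕ) : ℝ) := by
      have h2 : (1 / ε) < ((n + 1 : ℕ) : ℝ) := by
        refine hN.trans_le ?_
        exact_mod_cast (by omega : N ≤ n + 1)
      rw [div_lt_iff₀ hε] at h2
      linarith
    rw [← Real.log_le_iff_le_exp (by linarith [hh1 n]), hLe]
    have h3 := hlh n
    have h4 : (0 : ℝ) ≤ Real.log ((n + 1 : ℕ) : ℝ) :=
      Real.log_nonneg (by push_cast; linarith [(Nat.cast_nonneg n : (0 : ℝ) ≤ n)])
    have h5 : Real.log (h n) ≤ (ε * ((n + 1 : ℕ) : ℝ)) * Real.log (h n) := by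
      nlinarith
    have h6 : 0 ≤ ε * Real.log ((n + 1 : ℕ) : ℝ) := by positivity
    linarith [mul_assoc ε ((n + 1 : ℕ) : ℝ) (Real.log (h n))]
  have hKK : ∀ p : Fin 4 × Fin k, gm (fun n => X n p.1 p.2) ∈ KK L hL := by
    intro p
    rw [mem_KK_iff hL]
    constructor
    · intro ε hε
      filter_upwards [hbig ε hε] with n hn
      exact (box_num (hX n _ _)).1.trans hn
    · intro ε hε
      filter_upwards [hbig ε hε] with n hn
      have h1 := (box_num (hX n p.1 p.2)).2.trans hn
      push_cast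
      rw [abs_of_nonneg (Nat.cast_nonneg _)]
      exact h1
  let gu : Fin 4 × Fin k → GG := fun p => gm (fun n => u n p.1 p.2)
  have hgu : ∀ p, gu p ≠ 0 := fun p =>
    gm_ne_zero.2 (Eventually.of_forall fun n => isSU_ne b hb (hu n _ _))
  obtain ⟨l, hl1, hl2⟩ := wt_pairs hL gu hgu
  have hgsu : ∀ p q : Fin 4 × Fin k, GSU b (gu p * gu q) := by
    intro p q
    refine ⟨fun n => u n p.1 p.2 * u n q.1 q.2, rfl, fun n => ?_⟩
    obtain ⟨σ, e, hσ, he⟩ := hu n p.1 p.2
    obtain ⟨σ', e', hσ', he'⟩ := hu n q.1 q.2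
    refine ⟨σ * σ', e + e', ?_, ?_⟩
    · rcases hσ with rfl | rfl <;> rcases hσ' with rfl | rfl <;> simp
    · show u n p.1 p.2 * u n q.1 q.2 = _
      rw [he, he']
      have h1 : ∏ v, (b v : ℚ) ^ (e + e') v = (∏ v, (b v : ℚ) ^ (e v)) * ∏ v, (b v : ℚ) ^ (e' v) := by
        rw [← Finset.prod_mul_distrib]
        refine Finset.prod_congr rfl fun v _ => ?_
        exact zpow_add₀ (by exact_mod_cast (hb v).ne_zero) _ _
      rw [h1]
      push_cast
      ring
  let av : (Fin k × Fin k) ⊕ (Fin k × Fin k) → KK L hL :=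
    Sum.elim (fun q => ⟨_, hKK (0, q.1)⟩ * ⟨_, hKK (1, q.2)⟩)
      (fun q => -(⟨_, hKK (2, q.1)⟩ * ⟨_, hKK (3, q.2)⟩))
  let gv : (Fin k × Fin k) ⊕ (Fin k × Fin k) → GG :=
    Sum.elim (fun q => gu (0, q.1) * gu (1, q.2)) (fun q => gu (2, q.1) * gu (3, q.2))
  let wv : (Fin k × Fin k) ⊕ (Fin k × Fin k) → ℕ :=
    Sum.elim (fun q => l (0, q.1) + l (1, q.2)) (fun q => l (2, q.1) + l (3, q.2))
  let t : ℕ → (Fin k × Fin k) ⊕ (Fin k × Fin k) → ℚ := fun n =>
    Sum.elim (fun q => (X n 0 q.1 * u n 0 q.1) * (X n 1 q.2 * u n 1 q.2))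
      (fun q => -((X n 2 q.1 * u n 2 q.1) * (X n 3 q.2 * u n 3 q.2)))
  have hag : ∀ i, (av i : GG) * gv i = gm (fun n => t n i) := by
    rintro (q | q)
    · simp only [av, gv, t, Sum.elim_inl, MulMemClass.coe_mul, gu, gm_mul]
      congr 1
      funext n
      ring
    · simp only [av, gv, t, Sum.elim_inr, NegMemClass.coe_neg, MulMemClass.coe_mul, gu, gm_mul,
        gm_neg]
      congr 1
      funext n
      ring
  have hzero : ∑ i ∈ (Finset.univ : Finset ((Fin k × Fin k) ⊕ (Fin k × Fin k))),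
      (av i : GG) * gv i = 0 := by
    simp only [hag]
    rw [sum_gm, ← gm_zero]
    congr 1
    funext n
    rw [Fintype.sum_sum_type]
    simp only [t, Sum.elim_inl, Sum.elim_inr]
    rw [Finset.sum_neg_distrib, ← Finset.univ_product_univ]
    simp only [Finset.sum_product]
    rw [← Finset.sum_mul_sum, ← Finset.sum_mul_sum, hrel n]
    ring
  have hcs := cs sui s b hb hbi L hL _ Finset.univ av gv wv
    (by rintro (q | q) _ <;> exact hgsu _ _)
    (by
      rintro (q | q) _ (q' | q') _ hmem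
      · exact hl1 _ _ _ _ hmem
      · exact hl1 _ _ _ _ hmem
      · exact hl1 _ _ _ _ hmem
      · exact hl1 _ _ _ _ hmem) hzero
  -- the identity at most places
  obtain ⟨D, hD⟩ : ∃ D : ℕ, ∀ i, wv i < D :=
    ⟨Finset.univ.sup wv + 1, fun i => Nat.lt_succ_of_le (Finset.le_sup (Finset.mem_univ i))⟩
  have hev1 : ∀ᶠ n in (UU : Filter ℕ), ∀ v ∈ Finset.range D,
      ∑ i, (if v = wv i then t n i else 0) = 0 := by
    rw [Filter.eventually_all_finset]
    intro v _
    have h1 := congrArg (fun p : Polynomial GG => p.coeff v) hcs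
    simp only [Polynomial.finsetSum_coeff, Polynomial.coeff_C_mul, Polynomial.coeff_X_pow,
      Polynomial.coeff_zero, hag, mul_ite, mul_one, mul_zero] at h1
    have h2 : ∑ i, (if v = wv i then gm (fun n => t n i) else 0) =
        gm (fun n => ∑ i, (if v = wv i then t n i else 0)) := by
      rw [← sum_gm]
      refine Finset.sum_congr rfl fun i _ => ?_
      split_ifs
      · rfl
      · exact gm_zero.symm
    rw [h2, ← gm_zero, gm_eq] at h1
    exact h1
  have hev2 : ∀ᶠ n in (UU : Filter ℕ), ∀ i j j', l (i, j) = l (i, j') →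
      u n i j / u n i j' ∈ box ((n + 1) * (h n) ^ (n + 1)) := by
    rw [Filter.eventually_all]; intro i
    rw [Filter.eventually_all]; intro j
    rw [Filter.eventually_all]; intro j'
    by_cases hjj : l (i, j) = l (i, j')
    · have h1 := hl2 _ _ hjj
      simp only [gu] at h1
      rw [gm_div, mem_KK_iff hL] at h1
      filter_upwards [h1.1 1 one_pos, h1.2 1 one_pos] with n h2 h3 _
      rw [one_mul, hexp] at h2 h3
      refine mem_box ?_ ?_
      · push_cast at h2 ⊢
        exact h2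
      · push_cast at h3 ⊢
        rwa [abs_of_nonneg (Nat.cast_nonneg _)] at h3
    · exact Eventually.of_forall fun n h => absurd h hjj
  have hev3 : ∀ᶠ n in (UU : Filter ℕ), ∀ p, l p ≤ n + 1 := by
    apply ev_of_atTop
    filter_upwards [eventually_ge_atTop (Finset.univ.sup l)] with n hn p
    exact ((Finset.le_sup (Finset.mem_univ p)).trans hn).trans (Nat.le_succ n)
  obtain ⟨n, hn1, hn2, hn3⟩ := (hev1.and (hev2.and hev3)).exists
  obtain ⟨i, j, j', h1, h2⟩ := hbad n (fun i j => l (i, j)) (fun i j => hn3 _) (by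
    have hF : ∑ i, Polynomial.C (t n i) * Polynomial.X ^ (wv i) = 0 := by
      ext v
      simp only [Polynomial.finsetSum_coeff, Polynomial.coeff_C_mul, Polynomial.coeff_X_pow,
        Polynomial.coeff_zero, mul_ite, mul_one, mul_zero]
      by_cases hv : v < D
      · exact hn1 v (Finset.mem_range.2 hv)
      · refine Finset.sum_eq_zero fun i _ => ?_
        rw [if_neg]
        intro h3
        exact hv (h3 ▸ hD i)
    rw [← sub_eq_zero, ← hF, Fintype.sum_sum_type]
    simp only [t, wv, Sum.elim_inl, Sum.elim_inr, pol]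
    rw [Finset.sum_mul_sum, Finset.sum_mul_sum, ← Finset.univ_product_univ, Finset.sum_product,
      Finset.sum_product, sub_eq_add_neg, ← Finset.sum_neg_distrib]
    congr 1
    · refine Finset.sum_congr rfl fun j _ => Finset.sum_congr rfl fun j' _ => ?_
      simp only [map_mul, pow_add]
      ring
    · refine Finset.sum_congr rfl fun j _ => ?_
      rw [← Finset.sum_neg_distrib]
      refine Finset.sum_congr rfl fun j' _ => ?_
      simp only [map_neg, map_mul, pow_add]
      ring)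
  exact h2 (hn2 i j j' h1)

end Pool.Agent.K3h55.DU
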