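import Mathlib
import Pool.Agent.K3h55.DU.Lift
import Pool.Agent.H510R2.Div

set_option autoImplicit false

/-!
# S-units, S-free parts, leading coefficients, monic divisors
-/

namespace Pool.Agent.K3h55.DU

open Pool.Agent.TH551.SU Pool.Agent.TH539.MQ

variable {s : ℕ} {b : Fin s → ℕ}

lemma isSU_mul (hb : ∀ v, (b v).Prime) {x y : ℚ} (hx : IsSU b x) (hy : IsSU b y) :
    IsSU b (x * y) := by
  obtain ⟨σ, e, hσ, rfl⟩ := hx
  obtain ⟨σ', e', hσ', rfl⟩ := hy
  refine ⟨σ * σ', e + e', ?_, ?_⟩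
  · rcases hσ with rfl | rfl <;> rcases hσ' with rfl | rfl <;> simp
  · have h1 : ∏ v, (b v : ℚ) ^ ((e + e') v) =
        (∏ v, (b v : ℚ) ^ (e v)) * ∏ v, (b v : ℚ) ^ (e' v) := by
      rw [← Finset.prod_mul_distrib]
      exact Finset.prod_congr rfl fun v _ => zpow_add₀ (by exact_mod_cast (hb v).ne_zero) _ _
    rw [h1]
    push_cast
    ring

lemma isSU_inv {x : ℚ} (hx : IsSU b x) : IsSU b x⁻¹ := by
  obtain ⟨σ, e, hσ, rfl⟩ := hx
  refine ⟨σ, -e, hσ, ?_⟩
  rw [mul_inv, ← Finset.prod_inv_distrib]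
  congr 1
  · rcases hσ with rfl | rfl <;> norm_num
  · exact Finset.prod_congr rfl fun v _ => by rw [Pi.neg_apply, zpow_neg]

lemma isSU_div (hb : ∀ v, (b v).Prime) {x y : ℚ} (hx : IsSU b x) (hy : IsSU b y) :
    IsSU b (x / y) := by
  rw [div_eq_mul_inv]
  exact isSU_mul hb hx (isSU_inv hy)

lemma isSU_one' : IsSU b 1 := isSU_one b

lemma isSU_neg {x : ℚ} (hx : IsSU b x) : IsSU b (-x) := by
  obtain ⟨σ, e, hσ, rfl⟩ := hx
  refine ⟨-σ, e, ?_, ?_⟩
  · rcases hσ with rfl | rfl <;> simp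
  · push_cast; ring

lemma isSU_prime (_hb : ∀ v, (b v).Prime) (v : Fin s) : IsSU b (b v : ℚ) := by
  classical
  refine ⟨1, Pi.single v 1, Or.inl rfl, ?_⟩
  rw [Finset.prod_eq_single v]
  · simp
  · intro w _ hw
    rw [Pi.single_eq_of_ne hw, zpow_zero]
  · simp

lemma isSU_prod (hb : ∀ v, (b v).Prime) {ι : Type} (T : Finset ι) (f : ι → ℚ)
    (hf : ∀ i ∈ T, IsSU b (f i)) : IsSU b (∏ i ∈ T, f i) := by
  classical
  induction T using Finset.induction_on with
  | empty => simpa using isSU_one'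
  | insert a T ha ih =>
    rw [Finset.prod_insert ha]
    exact isSU_mul hb (hf _ (Finset.mem_insert_self _ _))
      (ih fun i hi => hf i (Finset.mem_insert_of_mem hi))

/-- an `S`-unit as a fraction -/
lemma su_frac (hb : ∀ v, (b v).Prime) {t : ℚ} (ht : IsSU b t) :
    ∃ (σ : ℤ) (a c : ℕ), (σ = 1 ∨ σ = -1) ∧ 0 < a ∧ 0 < c ∧ t = σ * a / c ∧
      ∀ d : ℕ, (∀ v, ¬ b v ∣ d) → Nat.Coprime d a ∧ Nat.Coprime d c := by
  obtain ⟨σ, e, hσ, rfl⟩ := ht
  refine ⟨σ, ∏ v, b v ^ (e v).toNat, ∏ v, b v ^ (-e v).toNat, hσ, ?_, ?_, ?_, ?_⟩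
  · exact Finset.prod_pos fun v _ => pow_pos (hb v).pos _
  · exact Finset.prod_pos fun v _ => pow_pos (hb v).pos _
  · rw [mul_div_assoc]
    congr 1
    push_cast
    rw [← Finset.prod_div_distrib]
    refine Finset.prod_congr rfl fun v _ => ?_
    have hv : (b v : ℚ) ≠ 0 := by exact_mod_cast (hb v).ne_zero
    rw [← zpow_natCast, ← zpow_natCast, ← zpow_sub₀ hv]
    congr 1
    omega
  · intro d hd
    have h1 : ∀ v, Nat.Coprime d (b v) := fun v =>
      ((Nat.Prime.coprime_iff_not_dvd (hb v)).2 (hd v)).symm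
    exact ⟨Nat.Coprime.prod_right fun v _ => (h1 v).pow_right _,
      Nat.Coprime.prod_right fun v _ => (h1 v).pow_right _⟩

/-- the part of a natural number free of the primes `b` -/
lemma sfree (hb : ∀ v, (b v).Prime) (n : ℕ) (hn : 0 < n) : ∃ m d : ℕ, n = m * d ∧
    IsSU b (m : ℚ) ∧ 0 < m ∧ 0 < d ∧ ∀ v, ¬ b v ∣ d := by
  induction n using Nat.strong_induction_on with
  | _ n ih =>
    by_cases h : ∃ v, b v ∣ n
    · obtain ⟨v, n', rfl⟩ := h
      have h1 : 0 < n' := Nat.pos_of_mul_pos_left hn |> fun _ => by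
        rcases Nat.eq_zero_or_pos n' with h0 | h0
        · subst h0; simp at hn
        · exact h0
      have h2 : n' < b v * n' := by
        have := (hb v).one_lt
        nlinarith
      obtain ⟨m, d, h3, h4, h5, h6, h7⟩ := ih n' h2 h1
      refine ⟨b v * m, d, by rw [h3]; ring, ?_, Nat.mul_pos (hb v).pos h5, h6, h7⟩
      push_cast
      exact isSU_mul hb (isSU_prime hb v) h4
    · push Not at h
      exact ⟨1, n, by simp, by simpa using isSU_one', one_pos, hn, h⟩

lemma sfree_unique (hb : ∀ v, (b v).Prime) {t : ℚ} (ht : IsSU b t) {d d' : ℕ} (hd : 0 < d)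
    (hd' : 0 < d') (h1 : ∀ v, ¬ b v ∣ d) (h2 : ∀ v, ¬ b v ∣ d') (h : (d : ℚ) = t * d') :
    d = d' := by
  obtain ⟨σ, a, c, hσ, ha, hc, rfl, hco⟩ := su_frac hb ht
  have hcQ : (c : ℚ) ≠ 0 := by exact_mod_cast hc.ne'
  have h3 : (d : ℚ) * c = σ * a * d' := by
    rw [h]
    field_simp
  rcases hσ with rfl | rfl
  · have h4 : d * c = a * d' := by
      have : (d : ℚ) * c = a * d' := by rw [h3]; push_cast; ring
      exact_mod_cast this
    have h5 : d ∣ d' := (hco d h1).1.dvd_of_dvd_mul_left (h4 ▸ Dvd.intro _ rfl)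
    have h6 : d' ∣ d := (hco d' h2).2.dvd_of_dvd_mul_right (h4 ▸ Dvd.intro_left _ rfl)
    exact Nat.dvd_antisymm h5 h6
  · exfalso
    have h4 : (0 : ℚ) < (d : ℚ) * c := by positivity
    have h5 : (0 : ℚ) < (a : ℚ) * d' := by positivity
    rw [h3] at h4
    push_cast at h4
    linarith

lemma isSU_den (hb : ∀ v, (b v).Prime) {x : ℚ} (hx : IsSU b x) : IsSU b (x.den : ℚ) := by
  obtain ⟨σ, a, c, hσ, ha, hc, hxe, hco⟩ := su_frac hb hx
  obtain ⟨m, d, h1, h2, h3, h4, h5⟩ := sfree hb x.den x.den_pos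
  have h6 : x.den ∣ c := by
    have h7 := Rat.den_dvd (σ * a) c
    have h8 : Rat.divInt (σ * a) c = x := by
      rw [Rat.divInt_eq_div, hxe]
      push_cast
      ring
    rw [h8] at h7
    exact_mod_cast h7
  have h7 : d ∣ c := (h1 ▸ Dvd.intro_left m rfl : d ∣ x.den).trans h6
  have h8 : d = 1 := Nat.eq_one_of_dvd_coprimes (hco d h5).2 dvd_rfl h7
  rw [h1, h8, mul_one]
  exact h2

lemma pol_coeff {k : ℕ} (X u : Fin k → ℚ) (l : Fin k → ℕ) (m : ℕ) :
    (pol X u l).coeff m = ∑ j, (if l j = m then X j * u j else 0) := by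
  unfold pol
  rw [Polynomial.finsetSum_coeff]
  refine Finset.sum_congr rfl fun j _ => ?_
  rw [Polynomial.coeff_C_mul, Polynomial.coeff_X_pow]
  by_cases hj : l j = m
  · rw [if_pos hj, if_pos hj.symm, mul_one]
  · rw [if_neg hj, if_neg (fun h => hj h.symm), mul_zero]

/-- the leading coefficient is a unit times a small integer -/
lemma lc_form (hb : ∀ v, (b v).Prime) {k : ℕ} (X : Fin k → ℤ) (u : Fin k → ℚ) (l : Fin k → ℕ)
    (h N : ℕ) (hN : 1 ≤ N) (hX : ∀ j, |X j| ≤ (h : ℤ)) (hu : ∀ j, IsSU b (u j))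
    (hr : ∀ j j', l j = l j' → u j / u j' ∈ box N)
    (hP : pol (fun j => (X j : ℚ)) u l ≠ 0) :
    ∃ (t : ℚ) (n : ℤ), IsSU b t ∧ n ≠ 0 ∧ |n| ≤ (k * (h * (N * N ^ k)) : ℕ) ∧
      (pol (fun j => (X j : ℚ)) u l).leadingCoeff = t * n := by
  classical
  set P := pol (fun j => (X j : ℚ)) u l with hPd
  have hlc : P.leadingCoeff ≠ 0 := Polynomial.leadingCoeff_ne_zero.2 hP
  set T := Finset.univ.filter (fun j => l j = P.natDegree) with hT
  have hcoef : P.leadingCoeff = ∑ j ∈ T, (X j : ℚ) * u j := by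
    rw [Polynomial.leadingCoeff, hT, Finset.sum_filter, ← pol_coeff]
  have hTne : T.Nonempty := by
    rw [Finset.nonempty_iff_ne_empty]
    intro h0
    rw [h0, Finset.sum_empty] at hcoef
    exact hlc hcoef
  obtain ⟨j0, hj0⟩ := hTne
  have hj0l : l j0 = P.natDegree := (Finset.mem_filter.1 hj0).2
  have hu0 : u j0 ≠ 0 := isSU_ne b hb (hu j0)
  let r : Fin k → ℚ := fun j => u j / u j0
  have hrbox : ∀ j ∈ T, r j ∈ box N := fun j hj =>
    hr j j0 ((Finset.mem_filter.1 hj).2.trans hj0l.symm)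
  have hden : ∀ j ∈ T, ((r j).den : ℤ) ≤ N := fun j hj => by
    exact_mod_cast (box_num (hrbox j hj)).2
  have hnum : ∀ j ∈ T, |(r j).num| ≤ (N : ℤ) := fun j hj => by
    exact_mod_cast (box_num (hrbox j hj)).1
  set Q : ℕ := ∏ i ∈ T, (r i).den with hQ
  have hQpos : 0 < Q := Finset.prod_pos fun i _ => (r i).den_pos
  have hQSU : IsSU b (Q : ℚ) := by
    rw [hQ]
    push_cast
    exact isSU_prod hb T _ fun i _ => isSU_den hb (isSU_div hb (hu i) (hu j0))
  set n : ℤ := ∑ j ∈ T, X j * (r j).num * ((∏ i ∈ T.erase j, (r i).den : ℕ) : ℤ) with hn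
  have hsplit : ∀ j ∈ T, (Q : ℚ) = (r j).den * ((∏ i ∈ T.erase j, (r i).den : ℕ) : ℚ) := by
    intro j hj
    rw [hQ, ← Finset.mul_prod_erase T (fun i => (r i).den) hj]
    push_cast
    ring
  have heq : P.leadingCoeff = u j0 / Q * n := by
    rw [hcoef, hn]
    push_cast
    rw [Finset.mul_sum]
    refine Finset.sum_congr rfl fun j hj => ?_
    have h1 := hsplit j hj
    have hd : ((r j).den : ℚ) ≠ 0 := by exact_mod_cast (r j).den_ne_zero
    have hE : ((∏ i ∈ T.erase j, (r i).den : ℕ) : ℚ) ≠ 0 := by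
      exact_mod_cast (Finset.prod_pos fun i _ => (r i).den_pos).ne'
    have h2 : u j = u j0 * ((r j).num / (r j).den) := by
      rw [Rat.num_div_den]
      simp only [r]
      field_simp
    rw [h1]
    push_cast at hE ⊢
    conv_lhs => rw [h2]
    field_simp
  refine ⟨u j0 / Q, n, isSU_div hb (hu j0) hQSU, ?_, ?_, heq⟩
  · intro h0
    rw [h0, Int.cast_zero, mul_zero] at heq
    exact hlc heq
  · have h1 : ∀ j ∈ T, |X j * (r j).num * ((∏ i ∈ T.erase j, (r i).den : ℕ) : ℤ)| ≤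
        (h : ℤ) * (N * N ^ k) := by
      intro j hj
      rw [abs_mul, abs_mul, mul_assoc]
      have h2 : |((∏ i ∈ T.erase j, (r i).den : ℕ) : ℤ)| ≤ (N : ℤ) ^ k := by
        rw [Nat.abs_cast]
        have h3 : ∏ i ∈ T.erase j, (r i).den ≤ N ^ (T.erase j).card := by
          refine Finset.prod_le_pow_card _ _ _ fun i hi => ?_
          exact_mod_cast hden i (Finset.mem_of_mem_erase hi)
        have h4 : N ^ (T.erase j).card ≤ N ^ k := by
          refine Nat.pow_le_pow_right hN ?_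
          refine (Finset.card_le_univ _).trans ?_
          simp
        exact_mod_cast h3.trans h4
      refine mul_le_mul (hX j) ?_ (by positivity) (by positivity)
      exact mul_le_mul (hnum j hj) h2 (by positivity) (by positivity)
    rw [hn]
    refine (Finset.abs_sum_le_sum_abs _ _).trans ((Finset.sum_le_sum h1).trans ?_)
    rw [Finset.sum_const, nsmul_eq_mul]
    push_cast
    refine mul_le_mul_of_nonneg_right ?_ (by positivity)
    have : T.card ≤ k := (Finset.card_le_univ _).trans (by simp)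
    exact_mod_cast this

/-- monic divisors -/
noncomputable def mdiv (P : Polynomial ℚ) : Finset (Polynomial ℚ) := by
  classical
  exact ((UniqueFactorizationMonoid.normalizedFactors P).powerset.map Multiset.prod).toFinset

lemma mdiv_card (P : Polynomial ℚ) (hP : P ≠ 0) : (mdiv P).card ≤ 2 ^ P.natDegree := by
  classical
  unfold mdiv
  refine (Multiset.toFinset_card_le _).trans ?_
  rw [Multiset.card_map, Multiset.card_powerset]
  refine Nat.pow_le_pow_right (by norm_num) ?_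
  have h1 : (UniqueFactorizationMonoid.normalizedFactors P).prod.natDegree = P.natDegree :=
    Polynomial.natDegree_eq_of_degree_eq (Polynomial.degree_eq_degree_of_associated
      (UniqueFactorizationMonoid.prod_normalizedFactors hP))
  rw [← h1, Polynomial.natDegree_multiset_prod _ (fun h =>
    UniqueFactorizationMonoid.zero_notMem_normalizedFactors P h)]
  have h2 : ∀ x ∈ (UniqueFactorizationMonoid.normalizedFactors P).map Polynomial.natDegree,
      1 ≤ x := by
    intro x hx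
    obtain ⟨q, hq, rfl⟩ := Multiset.mem_map.1 hx
    exact (UniqueFactorizationMonoid.irreducible_of_normalized_factor q hq).natDegree_pos
  have h3 := Multiset.card_nsmul_le_sum h2
  rw [Multiset.card_map, smul_eq_mul, mul_one] at h3
  exact h3

lemma mem_mdiv {P D : Polynomial ℚ} (hP : P ≠ 0) (hD : D.Monic) (h : D ∣ P) : D ∈ mdiv P := by
  classical
  unfold mdiv
  rw [Multiset.mem_toFinset, Multiset.mem_map]
  refine ⟨UniqueFactorizationMonoid.normalizedFactors D, ?_, ?_⟩
  · rw [Multiset.mem_powerset]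
    exact (UniqueFactorizationMonoid.dvd_iff_normalizedFactors_le_normalizedFactors hD.ne_zero hP).1 h
  · rw [UniqueFactorizationMonoid.prod_normalizedFactors_eq hD.ne_zero, hD.normalize_eq_self]

end Pool.Agent.K3h55.DU
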