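import Mathlib
import Pool.Agent.K3h55.DU.Units

set_option autoImplicit false

/-!
# The divisor bound for short sums of S-units
-/

namespace Pool.Agent.K3h55.DU

open Pool.Agent.TH551.SU Pool.Agent.TH539.MQ

/-- `x` is a sum of `k` terms `c u`, where `u` is a unit for the primes `b` and `c` an integer with
`|c| ≤ h` -/
def Sh {s : ℕ} (b : Fin s → ℕ) (k h : ℕ) (x : ℚ) : Prop :=
  ∃ (X : Fin k → ℤ) (u : Fin k → ℚ), (∀ j, |X j| ≤ (h : ℤ)) ∧ (∀ j, IsSU b (u j)) ∧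
    x = ∑ j, (X j : ℚ) * u j

variable {s : ℕ} {b : Fin s → ℕ}

lemma int_box {h : ℕ} (hh : 1 ≤ h) {c : ℤ} (hc : |c| ≤ (h : ℤ)) : (c : ℚ) ∈ box h := by
  refine mem_box ?_ ?_
  · rw [Rat.num_intCast]
    exact_mod_cast hc
  · rw [Rat.den_intCast]
    exact_mod_cast hh

lemma pol_natDegree {k : ℕ} (X u : Fin k → ℚ) (l : Fin k → ℕ) (C : ℕ) (hl : ∀ j, l j ≤ C) :
    (pol X u l).natDegree ≤ C := by
  unfold pol
  refine Polynomial.natDegree_sum_le_of_forall_le _ _ fun j _ => ?_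
  exact (Polynomial.natDegree_C_mul_X_pow_le _ _).trans (hl j)

/-- one integer which is divisible by all the small `S`-free factors -/
lemma exists_n0 (hb : ∀ v, (b v).Prime) (a : ℚ) (M : ℕ) :
    ∃ n0 : ℕ, 1 ≤ n0 ∧ n0 ≤ (M + 1) ^ 2 ∧ ∀ (d e : ℕ) (t : ℚ), 0 < d → 0 < e → d ≤ M → e ≤ M →
      (∀ v, ¬ b v ∣ d) → (∀ v, ¬ b v ∣ e) → IsSU b t → a = t * (d * e) → d ∣ n0 := by
  by_cases hex : ∃ (d e : ℕ) (t : ℚ), 0 < d ∧ 0 < e ∧ d ≤ M ∧ e ≤ M ∧
      (∀ v, ¬ b v ∣ d) ∧ (∀ v, ¬ b v ∣ e) ∧ IsSU b t ∧ a = t * (d * e)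
  · obtain ⟨d, e, t, hd, he, hdM, heM, hdb, heb, ht, ha⟩ := hex
    refine ⟨d * e, Nat.mul_pos hd he, ?_, ?_⟩
    · calc d * e ≤ (M + 1) * (M + 1) := Nat.mul_le_mul (by omega) (by omega)
        _ = (M + 1) ^ 2 := by ring
    · intro d' e' t' hd' he' _ _ hdb' heb' ht' ha'
      have ht0 : t ≠ 0 := isSU_ne b hb ht
      have hco : ∀ x y : ℕ, (∀ v, ¬ b v ∣ x) → (∀ v, ¬ b v ∣ y) → ∀ v, ¬ b v ∣ x * y := by
        intro x y hx hy v hv
        rcases (hb v).dvd_mul.1 hv with h | h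
        · exact hx v h
        · exact hy v h
      have h1 : d * e = d' * e' := by
        refine sfree_unique hb (isSU_div hb ht' ht) (Nat.mul_pos hd he) (Nat.mul_pos hd' he')
          (hco _ _ hdb heb) (hco _ _ hdb' heb') ?_
        push_cast
        rw [div_mul_eq_mul_div, ← ha', ha]
        field_simp
      rw [h1]
      exact Dvd.intro _ rfl
  · refine ⟨1, le_rfl, Nat.one_le_pow _ _ (by omega), ?_⟩
    intro d e t h1 h2 h3 h4 h5 h6 h7 h8
    exact absurd ⟨d, e, t, h1, h2, h3, h4, h5, h6, h7, h8⟩ hex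

/-- an integer is a unit times its `S`-free part -/
lemma int_form (hb : ∀ v, (b v).Prime) (n : ℤ) (hn : n ≠ 0) : ∃ (t : ℚ) (d : ℕ), IsSU b t ∧
    (n : ℚ) = t * d ∧ 0 < d ∧ d ≤ n.natAbs ∧ ∀ v, ¬ b v ∣ d := by
  obtain ⟨m, d, h1, h2, h3, h4, h5⟩ := sfree hb n.natAbs (Int.natAbs_pos.2 hn)
  have h6 : d ≤ n.natAbs := by
    rw [h1]
    exact Nat.le_mul_of_pos_left _ h3
  rcases Int.natAbs_eq n with h | h
  · refine ⟨m, d, h2, ?_, h4, h6, h5⟩
    rw [h, h1]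
    push_cast
    ring
  · refine ⟨-m, d, isSU_neg h2, ?_, h4, h6, h5⟩
    rw [h, h1]
    push_cast
    ring

/-- **Factorisations into short sums of S-units: structure.** -/
theorem div_struct (b : Fin s → ℕ) (hb : ∀ v, (b v).Prime) (hbi : Function.Injective b) (k : ℕ) :
    ∃ C : ℕ, ∀ h : ℕ, 1 ≤ h → ∀ p : ℚ, p ≠ 0 → ∃ F : Finset (ℚ × ℕ), F.card ≤ C ∧
      (∀ q ∈ F, 1 ≤ q.2 ∧ q.2 ≤ C * h ^ C) ∧
      ∀ x y : ℚ, Sh b k h x → Sh b k h y → x * y = p →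
        ∃ q ∈ F, ∃ d : ℕ, d ∣ q.2 ∧ ∃ t, IsSU b t ∧ x = t * d * q.1 := by
  classical
  obtain ⟨C, hC⟩ := lift b hb hbi k
  let A : ℕ := ((k + 1) * (C + 1) ^ (k + 1)) ^ 2
  let E : ℕ := 2 * (1 + (C + 1) * (k + 1))
  let G : ℕ := ((C + 1) ^ k * (C + 1) ^ k) * 2 ^ (2 * C)
  refine ⟨A + E + G, fun h hh p hp => ?_⟩
  by_cases hex : ∃ x y, Sh b k h x ∧ Sh b k h y ∧ x * y = p
  swap
  · refine ⟨∅, by simp, by simp, ?_⟩
    intro x y hx hy hxy
    exact absurd ⟨x, y, hx, hy, hxy⟩ hex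
  obtain ⟨x', y', ⟨X2, u2, hX2, hu2, hx'⟩, ⟨X3, u3, hX3, hu3, hy'⟩, hxy'⟩ := hex
  let N : ℕ := (C + 1) * h ^ (C + 1)
  have hN1 : 1 ≤ N := Nat.mul_pos (by omega) (pow_pos hh _)
  have hNC : C * h ^ C ≤ N :=
    Nat.mul_le_mul (by omega) (Nat.pow_le_pow_right hh (by omega))
  let M : ℕ := k * (h * (N * N ^ k))
  let PP : (Fin k → Fin (C + 1)) × (Fin k → Fin (C + 1)) → Polynomial ℚ := fun l =>
    pol (fun j => (X2 j : ℚ)) u2 (fun j => (l.1 j : ℕ)) *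
      pol (fun j => (X3 j : ℚ)) u3 (fun j => (l.2 j : ℕ))
  have hPP1 : ∀ l, (PP l).eval 1 = p := by
    intro l
    simp only [PP]
    rw [Polynomial.eval_mul, pol_eval_one, pol_eval_one, ← hx', ← hy', hxy']
  have hPP0 : ∀ l, PP l ≠ 0 := by
    intro l h0
    have h1 := hPP1 l
    rw [h0, Polynomial.eval_zero] at h1
    exact hp h1.symm
  have hPPd : ∀ l, (PP l).natDegree ≤ 2 * C := by
    intro l
    refine (Polynomial.natDegree_mul_le).trans ?_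
    have h1 := pol_natDegree (fun j => (X2 j : ℚ)) u2 (fun j => (l.1 j : ℕ)) C
      (fun j => Nat.lt_succ_iff.1 (l.1 j).2)
    have h2 := pol_natDegree (fun j => (X3 j : ℚ)) u3 (fun j => (l.2 j : ℕ)) C
      (fun j => Nat.lt_succ_iff.1 (l.2 j).2)
    omega
  choose n0 hn1 hn2 hn3 using fun l => exists_n0 hb (PP l).leadingCoeff M
  let F : Finset (ℚ × ℕ) := Finset.univ.biUnion fun l =>
    (mdiv (PP l)).image fun D => (D.eval 1, n0 l)
  have hAE : (M + 1) ^ 2 ≤ (A + E + G) * h ^ (A + E + G) := by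
    have h1 : M + 1 ≤ ((k + 1) * (C + 1) ^ (k + 1)) * h ^ (1 + (C + 1) * (k + 1)) := by
      have h2 : M = k * ((C + 1) ^ (k + 1) * h ^ (1 + (C + 1) * (k + 1))) := by
        simp only [M, N]
        rw [← pow_succ', mul_pow, ← pow_mul, pow_add h 1, pow_one]
        ring
      have h3 : 1 ≤ (C + 1) ^ (k + 1) * h ^ (1 + (C + 1) * (k + 1)) :=
        Nat.mul_pos (pow_pos (by omega) _) (pow_pos hh _)
      rw [h2]
      nlinarith
    calc (M + 1) ^ 2 ≤ (((k + 1) * (C + 1) ^ (k + 1)) * h ^ (1 + (C + 1) * (k + 1))) ^ 2 :=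
          Nat.pow_le_pow_left h1 2
      _ = A * h ^ E := by
          simp only [A, E]
          rw [mul_pow, ← pow_mul]
          congr 2
          ring
      _ ≤ (A + E + G) * h ^ (A + E + G) :=
          Nat.mul_le_mul (by omega) (Nat.pow_le_pow_right hh (by omega))
  refine ⟨F, ?_, ?_, ?_⟩
  · have h1 : F.card ≤ ∑ l : (Fin k → Fin (C + 1)) × (Fin k → Fin (C + 1)), 2 ^ (2 * C) := by
      refine Finset.card_biUnion_le.trans (Finset.sum_le_sum fun l _ => ?_)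
      refine Finset.card_image_le.trans ((mdiv_card _ (hPP0 l)).trans ?_)
      exact Nat.pow_le_pow_right (by norm_num) (hPPd l)
    rw [Finset.sum_const, Finset.card_univ, Fintype.card_prod, Fintype.card_fun, Fintype.card_fin,
      Fintype.card_fin, smul_eq_mul] at h1
    exact h1.trans (by simp only [G]; omega)
  · intro q hq
    simp only [F, Finset.mem_biUnion, Finset.mem_image] at hq
    obtain ⟨l, _, D, _, rfl⟩ := hq
    exact ⟨hn1 l, (hn2 l).trans hAE⟩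
  · rintro x y ⟨X0, u0, hX0, hu0, hx⟩ ⟨X1, u1, hX1, hu1, hy⟩ hxy
    have hXall : ∀ (i : Fin 4) (j : Fin k), |(![X0, X1, X2, X3] : Fin 4 → Fin k → ℤ) i j| ≤ (h : ℤ) := by
      intro i j
      fin_cases i
      · exact hX0 j
      · exact hX1 j
      · exact hX2 j
      · exact hX3 j
    have huall : ∀ (i : Fin 4) (j : Fin k), IsSU b ((![u0, u1, u2, u3] : Fin 4 → Fin k → ℚ) i j) := by
      intro i j
      fin_cases i
      · exact hu0 j
      · exact hu1 j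
      · exact hu2 j
      · exact hu3 j
    obtain ⟨l, hl, hpoly, hratio⟩ := hC h hh
      (fun i j => (((![X0, X1, X2, X3] : Fin 4 → Fin k → ℤ) i j : ℤ) : ℚ)) ![u0, u1, u2, u3]
      (fun i j => int_box hh (hXall i j)) huall (by
        show (∑ j, (X0 j : ℚ) * u0 j) * (∑ j, (X1 j : ℚ) * u1 j) =
          (∑ j, (X2 j : ℚ) * u2 j) * (∑ j, (X3 j : ℚ) * u3 j)
        rw [← hx, ← hy, ← hx', ← hy', hxy, hxy'])
    have hpoly' : pol (fun j => (X0 j : ℚ)) u0 (l 0) * pol (fun j => (X1 j : ℚ)) u1 (l 1) =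
        pol (fun j => (X2 j : ℚ)) u2 (l 2) * pol (fun j => (X3 j : ℚ)) u3 (l 3) := hpoly
    obtain ⟨P0, hP0⟩ : ∃ P0, P0 = pol (fun j => (X0 j : ℚ)) u0 (l 0) := ⟨_, rfl⟩
    obtain ⟨P1, hP1⟩ : ∃ P1, P1 = pol (fun j => (X1 j : ℚ)) u1 (l 1) := ⟨_, rfl⟩
    let lq : (Fin k → Fin (C + 1)) × (Fin k → Fin (C + 1)) :=
      (fun j => ⟨l 2 j, Nat.lt_succ_of_le (hl 2 j)⟩, fun j => ⟨l 3 j, Nat.lt_succ_of_le (hl 3 j)⟩)
    have hPq : P0 * P1 = PP lq := by
      rw [hP0, hP1, hpoly']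
    have hne : P0 * P1 ≠ 0 := hPq ▸ hPP0 lq
    have hP0ne : P0 ≠ 0 := left_ne_zero_of_mul hne
    have hP1ne : P1 ≠ 0 := right_ne_zero_of_mul hne
    obtain ⟨t0, m0, ht0, hm0, hm0b, hlc0⟩ := lc_form hb X0 u0 (l 0) h N hN1 hX0 hu0
      (fun j j' hj => box_mono hNC (hratio 0 j j' hj)) (hP0 ▸ hP0ne)
    obtain ⟨t1, m1, ht1, hm1, hm1b, hlc1⟩ := lc_form hb X1 u1 (l 1) h N hN1 hX1 hu1
      (fun j j' hj => box_mono hNC (hratio 1 j j' hj)) (hP1 ▸ hP1ne)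
    rw [← hP0] at hlc0
    rw [← hP1] at hlc1
    obtain ⟨r0, d0, hr0, hmd0, hd0, hd0m, hd0b⟩ := int_form hb m0 hm0
    obtain ⟨r1, d1, hr1, hmd1, hd1, hd1m, hd1b⟩ := int_form hb m1 hm1
    have hdvd : d0 ∣ n0 lq := by
      refine hn3 lq d0 d1 (t0 * r0 * (t1 * r1)) hd0 hd1 ?_ ?_ hd0b hd1b
        (isSU_mul hb (isSU_mul hb ht0 hr0) (isSU_mul hb ht1 hr1)) ?_
      · refine hd0m.trans ?_
        have := hm0b
        zify
        exact this
      · refine hd1m.trans ?_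
        have := hm1b
        zify
        exact this
      · rw [← hPq, Polynomial.leadingCoeff_mul, hlc0, hlc1, hmd0, hmd1]
        ring
    have hlc0ne : P0.leadingCoeff ≠ 0 := Polynomial.leadingCoeff_ne_zero.2 hP0ne
    let D : Polynomial ℚ := P0 * Polynomial.C P0.leadingCoeff⁻¹
    have hDmon : D.Monic := Polynomial.monic_mul_leadingCoeff_inv hP0ne
    have hDP : D ∣ PP lq := by
      rw [← hPq]
      refine ⟨Polynomial.C P0.leadingCoeff * P1, ?_⟩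
      simp only [D]
      have : Polynomial.C P0.leadingCoeff⁻¹ * Polynomial.C P0.leadingCoeff = 1 := by
        rw [← map_mul, inv_mul_cancel₀ hlc0ne, map_one]
      linear_combination (-(P0 * P1)) * this
    refine ⟨(D.eval 1, n0 lq), ?_, d0, hdvd, t0 * r0, isSU_mul hb ht0 hr0, ?_⟩
    · simp only [F, Finset.mem_biUnion, Finset.mem_image]
      exact ⟨lq, Finset.mem_univ _, D, mem_mdiv (hPP0 lq) hDmon hDP, rfl⟩
    · have h1 : D.eval 1 = x * P0.leadingCoeff⁻¹ := by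
        simp only [D]
        rw [Polynomial.eval_mul, Polynomial.eval_C, hP0, pol_eval_one, ← hx]
      rw [h1, hlc0, hmd0]
      have h2 : t0 * (r0 * (d0 : ℚ)) ≠ 0 := by
        rw [← hmd0, ← hlc0]
        exact hlc0ne
      have h3 := mul_inv_cancel₀ h2
      show x = t0 * r0 * (d0 : ℚ) * (x * (t0 * (r0 * (d0 : ℚ)))⁻¹)
      linear_combination (-x) * h3

end Pool.Agent.K3h55.DU
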