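import Mathlib
import Pool.Agent.K3h55.DU.Div

set_option autoImplicit false

/-!
# Counting factorisations into short sums of S-units
-/

namespace Pool.Agent.K3h55.DU

open Finset Pool.Agent.TH551.SU Pool.Agent.TH539.MQ

variable {s : ℕ} {b : Fin s → ℕ}

lemma Sh.mono {k h h' : ℕ} {x : ℚ} (hx : Sh b k h x) (hh : h ≤ h') : Sh b k h' x := by
  obtain ⟨X, u, h1, h2, h3⟩ := hx
  exact ⟨X, u, fun j => (h1 j).trans (by exact_mod_cast hh), h2, h3⟩

lemma Sh.succ {k h : ℕ} {x : ℚ} (hx : Sh b k h x) : Sh b (k + 1) h x := by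
  obtain ⟨X, u, h1, h2, h3⟩ := hx
  refine ⟨Fin.cons 0 X, Fin.cons 1 u, ?_, ?_, ?_⟩
  · intro j
    refine Fin.cases ?_ (fun j => ?_) j
    · simp
    · simpa using h1 j
  · intro j
    refine Fin.cases ?_ (fun j => ?_) j
    · simpa using isSU_one'
    · simpa using h2 j
  · rw [Fin.sum_univ_succ]
    simp [h3]

lemma Sh.mono_k {k k' h : ℕ} {x : ℚ} (hx : Sh b k h x) (hk : k ≤ k') : Sh b k' h x := by
  induction k', hk using Nat.le_induction with
  | base => exact hx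
  | succ n _ ih => exact ih.succ

lemma Sh.mul (hb : ∀ v, (b v).Prime) {k k' h h' : ℕ} {x y : ℚ} (hx : Sh b k h x)
    (hy : Sh b k' h' y) : Sh b (k * k') (h * h') (x * y) := by
  obtain ⟨X, u, h1, h2, h3⟩ := hx
  obtain ⟨Y, v, g1, g2, g3⟩ := hy
  refine ⟨fun j => X (finProdFinEquiv.symm j).1 * Y (finProdFinEquiv.symm j).2,
    fun j => u (finProdFinEquiv.symm j).1 * v (finProdFinEquiv.symm j).2, ?_, ?_, ?_⟩
  · intro j
    rw [abs_mul]
    push_cast
    exact mul_le_mul (h1 _) (g1 _) (abs_nonneg _) (by positivity)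
  · intro j
    exact isSU_mul hb (h2 _) (g2 _)
  · rw [h3, g3, Equiv.sum_comp finProdFinEquiv.symm
      (fun p : Fin k × Fin k' => (((X p.1 * Y p.2 : ℤ) : ℚ)) * (u p.1 * v p.2)),
      Finset.sum_mul_sum, ← Finset.univ_product_univ, Finset.sum_product]
    refine Finset.sum_congr rfl fun i _ => Finset.sum_congr rfl fun j _ => ?_
    push_cast
    ring

lemma Sh.one : Sh b 1 1 1 := ⟨fun _ => 1, fun _ => 1, by simp, fun _ => isSU_one', by simp⟩

lemma Sh.prod (hb : ∀ v, (b v).Prime) {ι : Type} (T : Finset ι) {k h : ℕ} (x : ι → ℚ)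
    (hx : ∀ i ∈ T, Sh b k h (x i)) : Sh b (k ^ T.card) (h ^ T.card) (∏ i ∈ T, x i) := by
  classical
  induction T using Finset.induction_on with
  | empty => simpa using Sh.one
  | insert a T ha ih =>
    rw [Finset.prod_insert ha, Finset.card_insert_of_notMem ha, pow_succ', pow_succ']
    exact (hx _ (Finset.mem_insert_self _ _)).mul hb
      (ih fun i hi => hx i (Finset.mem_insert_of_mem hi))

/-- **The divisor bound for short sums of S-units.** -/
theorem div_count (b : Fin s → ℕ) (hb : ∀ v, (b v).Prime) (hbi : Function.Injective b) (k : ℕ)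
    (ε : ℝ) (hε : 0 < ε) : ∃ C : ℝ, 0 < C ∧ ∀ h : ℕ, 1 ≤ h → ∀ p : ℚ, p ≠ 0 →
      ∃ R : Finset ℚ, (R.card : ℝ) ≤ C * (h : ℝ) ^ ε ∧
        ∀ x y : ℚ, Sh b k h x → Sh b k h y → x * y = p →
          ∃ ρ ∈ R, ∃ t, IsSU b t ∧ x = t * ρ := by
  classical
  obtain ⟨C0, hC0⟩ := div_struct b hb hbi k
  have hε' : 0 < ε / (C0 + 1) := by positivity
  obtain ⟨D, hD, hdiv⟩ := Pool.Agent.H510R2.divisor_bound (ε / (C0 + 1)) hε'
  refine ⟨(C0 + 1) * (D * ((C0 : ℝ) + 1) ^ (ε / (C0 + 1))), by positivity, fun h hh p hp => ?_⟩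
  obtain ⟨F, hF1, hF2, hF3⟩ := hC0 h hh p hp
  have hh1 : (1 : ℝ) ≤ h := by exact_mod_cast hh
  refine ⟨F.biUnion fun q => q.2.divisors.image fun d : ℕ => (d : ℚ) * q.1, ?_, ?_⟩
  · have h1 : ∀ q ∈ F, (((q.2.divisors.image fun d : ℕ => (d : ℚ) * q.1).card : ℕ) : ℝ) ≤
        D * ((C0 : ℝ) + 1) ^ (ε / (C0 + 1)) * (h : ℝ) ^ ε := by
      intro q hq
      obtain ⟨h2, h3⟩ := hF2 q hq
      have h4 : ((q.2.divisors.image fun d : ℕ => (d : ℚ) * q.1).card : ℝ) ≤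
          (q.2.divisors.card : ℝ) := by exact_mod_cast Finset.card_image_le
      refine h4.trans ((hdiv q.2 h2).trans ?_)
      rw [mul_assoc]
      refine mul_le_mul_of_nonneg_left ?_ hD.le
      have h5 : (q.2 : ℝ) ≤ ((C0 : ℝ) + 1) * (h : ℝ) ^ ((C0 : ℝ) + 1) := by
        have h6 : (q.2 : ℝ) ≤ (C0 : ℝ) * (h : ℝ) ^ C0 := by exact_mod_cast h3
        refine h6.trans ?_
        have h7 : (h : ℝ) ^ C0 ≤ (h : ℝ) ^ ((C0 : ℝ) + 1) := by
          rw [← Real.rpow_natCast]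
          exact Real.rpow_le_rpow_of_exponent_le hh1 (by linarith)
        have h8 : (0 : ℝ) ≤ (C0 : ℝ) := Nat.cast_nonneg _
        exact mul_le_mul (by linarith) h7 (by positivity) (by linarith)
      refine (Real.rpow_le_rpow (by positivity) h5 hε'.le).trans ?_
      rw [Real.mul_rpow (by positivity) (by positivity), ← Real.rpow_mul (by positivity)]
      have h9 : ((C0 : ℝ) + 1) * (ε / (C0 + 1)) = ε := by field_simp
      rw [h9]
    have h2 : (((F.biUnion fun q => q.2.divisors.image fun d : ℕ => (d : ℚ) * q.1).card : ℕ) : ℝ) ≤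
        ∑ q ∈ F, (((q.2.divisors.image fun d : ℕ => (d : ℚ) * q.1).card : ℕ) : ℝ) := by
      exact_mod_cast Finset.card_biUnion_le
    refine h2.trans ((Finset.sum_le_sum h1).trans ?_)
    rw [Finset.sum_const, nsmul_eq_mul]
    have h3 : (F.card : ℝ) ≤ (C0 : ℝ) + 1 := by
      have : (F.card : ℝ) ≤ (C0 : ℝ) := by exact_mod_cast hF1
      linarith
    calc (F.card : ℝ) * (D * ((C0 : ℝ) + 1) ^ (ε / (C0 + 1)) * (h : ℝ) ^ ε)
        ≤ ((C0 : ℝ) + 1) * (D * ((C0 : ℝ) + 1) ^ (ε / (C0 + 1)) * (h : ℝ) ^ ε) :=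
          mul_le_mul_of_nonneg_right h3 (by positivity)
      _ = (C0 + 1) * (D * ((C0 : ℝ) + 1) ^ (ε / (C0 + 1))) * (h : ℝ) ^ ε := by ring
  · intro x y hx hy hxy
    obtain ⟨q, hq, d, hd, t, ht, hxt⟩ := hF3 x y hx hy hxy
    refine ⟨(d : ℚ) * q.1, ?_, t, ht, by rw [hxt]; ring⟩
    rw [Finset.mem_biUnion]
    refine ⟨q, hq, Finset.mem_image_of_mem _ ?_⟩
    rw [Nat.mem_divisors]
    have := (hF2 q hq).1
    exact ⟨hd, by omega⟩

/-- the same for several factors -/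
theorem div_count_m (b : Fin s → ℕ) (hb : ∀ v, (b v).Prime) (hbi : Function.Injective b) (k : ℕ)
    (m : ℕ) (hm : 1 ≤ m) (ε : ℝ) (hε : 0 < ε) :
    ∃ C : ℝ, 0 < C ∧ ∀ h : ℕ, 1 ≤ h → ∀ p : ℚ, p ≠ 0 →
      ∃ R : Finset ℚ, (R.card : ℝ) ≤ C * (h : ℝ) ^ ε ∧
        ∀ x : Fin m → ℚ, (∀ i, Sh b k h (x i)) → ∏ i, x i = p →
          ∀ i, ∃ ρ ∈ R, ∃ t, IsSU b t ∧ x i = t * ρ := by
  classical
  have hm0 : (0 : ℝ) < m := by exact_mod_cast hm
  obtain ⟨C, hC, hcnt⟩ := div_count b hb hbi ((k + 1) ^ m) (ε / m) (by positivity)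
  refine ⟨C, hC, fun h hh p hp => ?_⟩
  obtain ⟨R, hR1, hR2⟩ := hcnt (h ^ m) (Nat.one_le_pow _ _ hh) p hp
  refine ⟨R, ?_, ?_⟩
  · refine hR1.trans (le_of_eq ?_)
    congr 1
    push_cast
    rw [← Real.rpow_natCast, ← Real.rpow_mul (by positivity)]
    congr 1
    field_simp
  · intro x hx hprod i
    have h1 : Sh b ((k + 1) ^ m) (h ^ m) (x i) := by
      refine ((hx i).mono (Nat.le_self_pow (by omega) h)).mono_k ?_
      exact (Nat.le_succ k).trans (Nat.le_self_pow (by omega) (k + 1))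
    have h2 : Sh b ((k + 1) ^ m) (h ^ m) (∏ j ∈ Finset.univ.erase i, x j) := by
      have h3 := Sh.prod hb (Finset.univ.erase i) x (fun j _ => hx j)
      have hc : (Finset.univ.erase i : Finset (Fin m)).card ≤ m :=
        (Finset.card_le_univ _).trans (by simp)
      refine (h3.mono (Nat.pow_le_pow_right hh hc)).mono_k ?_
      exact (Nat.pow_le_pow_left (Nat.le_succ k) _).trans (Nat.pow_le_pow_right (by omega) hc)
    exact hR2 _ _ h1 h2 (by rw [Finset.mul_prod_erase _ _ (Finset.mem_univ i), hprod])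

end Pool.Agent.K3h55.DU
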