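import Mathlib
import Pool.Agent.K3h55.DU.Cnt
import Pool.Agent.R849.RF.Base
import Pool.Agent.W219.SP.Cor

set_option autoImplicit false

/-!
# Short sums of S-units: the additive and the multiplicative part of a set
-/

namespace Pool.Agent.K3h55.DU

open Finset Pool.Agent.TH551.SU Pool.Agent.TH539.MQ Pool.Agent.Y359.PE Pool.Agent.R849.RF
open scoped Classical Pointwise

variable {s : ℕ} {b : Fin s → ℕ}

/-- the number of representations as a product of `m` elements -/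
theorem rep_part (b : Fin s → ℕ) (hb : ∀ v, (b v).Prime) (hbi : Function.Injective b) (k m : ℕ)
    (hm : 1 ≤ m) (ε : ℝ) (hε : 0 < ε) :
    ∃ C : ℝ, 0 < C ∧ ∀ h : ℕ, 1 ≤ h → ∀ (Q : ℝ) (A : Finset ℤ), ∀ lam : ℚ,
      lam ≠ 0 → (∀ a ∈ A, Sh b k h (lam * a)) →
      (∀ ρ : ℚ, ((A.filter fun a : ℤ => ∃ t, IsSU b t ∧ lam * a = t * ρ).card : ℝ) ≤ Q) →
      ∀ v : ℤ, v ≠ 0 →
      (((Fintype.piFinset fun _ : Fin m => A).filter fun f => ∏ i, f i = v).card : ℝ) ≤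
        (C * (h : ℝ) ^ ε * Q) ^ m := by
  obtain ⟨C, hC, hcnt⟩ := div_count_m b hb hbi k m hm ε hε
  refine ⟨C, hC, fun h hh Q A lam hlam hA hfib v hv => ?_⟩
  have hQ0 : 0 ≤ Q := (Nat.cast_nonneg _).trans (hfib 0)
  have hv0 : (v : ℚ) ≠ 0 := by exact_mod_cast hv
  obtain ⟨R, hR1, hR2⟩ := hcnt h hh (lam ^ m * v) (mul_ne_zero (pow_ne_zero _ hlam) hv0)
  obtain ⟨Y, hYd⟩ : ∃ Y : Finset ℤ,
      Y = A.filter fun a : ℤ => ∃ ρ ∈ R, ∃ t, IsSU b t ∧ lam * a = t * ρ := ⟨_, rfl⟩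
  have hY : (Y.card : ℝ) ≤ C * (h : ℝ) ^ ε * Q := by
    have h1 : Y ⊆ R.biUnion fun ρ => A.filter fun a : ℤ => ∃ t, IsSU b t ∧ lam * a = t * ρ := by
      intro a ha
      rw [hYd, mem_filter] at ha
      obtain ⟨ha, ρ, hρ, ht⟩ := ha
      exact mem_biUnion.2 ⟨ρ, hρ, mem_filter.2 ⟨ha, ht⟩⟩
    have h2 : (Y.card : ℝ) ≤
        ∑ ρ ∈ R, ((A.filter fun a : ℤ => ∃ t, IsSU b t ∧ lam * a = t * ρ).card : ℝ) := by
      exact_mod_cast (card_le_card h1).trans card_biUnion_le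
    refine h2.trans ((sum_le_sum fun ρ _ => hfib ρ).trans ?_)
    rw [sum_const, nsmul_eq_mul]
    exact mul_le_mul_of_nonneg_right hR1 hQ0
  have hsub : ((Fintype.piFinset fun _ : Fin m => A).filter fun f => ∏ i, f i = v) ⊆
      Fintype.piFinset fun _ : Fin m => Y := by
    intro f hf
    rw [mem_filter, Fintype.mem_piFinset] at hf
    rw [Fintype.mem_piFinset]
    intro i
    rw [hYd, mem_filter]
    refine ⟨hf.1 i, ?_⟩
    refine hR2 (fun j => lam * (f j : ℚ)) (fun j => hA _ (hf.1 j)) ?_ i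
    rw [prod_mul_distrib, prod_const, card_univ, Fintype.card_fin, ← hf.2]
    push_cast
    rfl
  have h3 : (((Fintype.piFinset fun _ : Fin m => A).filter fun f => ∏ i, f i = v).card : ℝ) ≤
      (Y.card : ℝ) ^ m := by
    have h4 := card_le_card hsub
    rw [Fintype.card_piFinset, prod_const, card_univ, Fintype.card_fin] at h4
    exact_mod_cast h4
  exact h3.trans (pow_le_pow_left₀ (by positivity) hY m)

theorem mult_part (b : Fin s → ℕ) (hb : ∀ v, (b v).Prime) (hbi : Function.Injective b) (k m : ℕ)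
    (hm : 1 ≤ m) (ε : ℝ) (hε : 0 < ε) :
    ∃ C : ℝ, 0 < C ∧ ∀ h : ℕ, 1 ≤ h → ∀ (Q : ℝ) (A : Finset ℤ), (0 : ℤ) ∉ A → ∀ lam : ℚ,
      lam ≠ 0 → (∀ a ∈ A, Sh b k h (lam * a)) →
      (∀ ρ : ℚ, ((A.filter fun a : ℤ => ∃ t, IsSU b t ∧ lam * a = t * ρ).card : ℝ) ≤ Q) →
      (A.card : ℝ) ^ m ≤ (C * (h : ℝ) ^ ε * Q) ^ m * (pk m A).card := by
  obtain ⟨C, hC, hrep⟩ := rep_part b hb hbi k m hm ε hε
  refine ⟨C, hC, fun h hh Q A h0 lam hlam hA hfib => ?_⟩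
  have key : ∀ v ∈ pk m A,
      (((Fintype.piFinset fun _ : Fin m => A).filter fun f => ∏ i, f i = v).card : ℝ) ≤
        (C * (h : ℝ) ^ ε * Q) ^ m := by
    intro v hv
    obtain ⟨f0, hf0, hf0v⟩ := mem_image.1 hv
    rw [Fintype.mem_piFinset] at hf0
    refine hrep h hh Q A lam hlam hA hfib v ?_
    rw [← hf0v]
    exact prod_ne_zero_iff.2 fun i _ h1 => h0 (h1 ▸ hf0 i)
  have h1 : (Fintype.piFinset fun _ : Fin m => A).card = ∑ v ∈ pk m A,
      ((Fintype.piFinset fun _ : Fin m => A).filter fun f => ∏ i, f i = v).card := by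
    unfold pk
    exact card_eq_sum_card_image _ _
  rw [Fintype.card_piFinset, prod_const, card_univ, Fintype.card_fin] at h1
  have h2 : (A.card : ℝ) ^ m = ∑ v ∈ pk m A,
      (((Fintype.piFinset fun _ : Fin m => A).filter fun f => ∏ i, f i = v).card : ℝ) := by
    exact_mod_cast h1
  rw [h2]
  refine (sum_le_sum key).trans (le_of_eq ?_)
  rw [sum_const, nsmul_eq_mul, mul_comm]

lemma polylog (K ε : ℝ) (hK : 0 ≤ K) (hε : 0 < ε) (r : ℕ) : ∃ C : ℝ, 0 < C ∧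
    ∀ N : ℕ, 1 ≤ N → (K * Real.log (2 * N) + 1) ^ r ≤ C * (N : ℝ) ^ ε := by
  obtain ⟨η, hη⟩ : ∃ η : ℝ, η = ε / (r + 1) := ⟨_, rfl⟩
  have hη0 : 0 < η := by rw [hη]; positivity
  refine ⟨(K * ((2 : ℝ) ^ η / η) + 1) ^ r, by positivity, fun N hN => ?_⟩
  have hN1 : (1 : ℝ) ≤ N := by exact_mod_cast hN
  have h1 : Real.log (2 * N) ≤ (2 : ℝ) ^ η / η * (N : ℝ) ^ η := by
    have h2 := Real.log_le_rpow_div (x := 2 * (N : ℝ)) (by positivity) hη0
    rw [Real.mul_rpow (by norm_num) (by positivity)] at h2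
    refine h2.trans (le_of_eq (by ring))
  have hNη : 1 ≤ (N : ℝ) ^ η := Real.one_le_rpow hN1 hη0.le
  have hlog : 0 ≤ Real.log (2 * N) := Real.log_nonneg (by linarith)
  have h3 : K * Real.log (2 * N) + 1 ≤ (K * ((2 : ℝ) ^ η / η) + 1) * (N : ℝ) ^ η := by
    have h4 := mul_le_mul_of_nonneg_left h1 hK
    nlinarith
  refine (pow_le_pow_left₀ (by positivity) h3 r).trans ?_
  rw [mul_pow]
  refine mul_le_mul_of_nonneg_left ?_ (by positivity)
  rw [← Real.rpow_natCast, ← Real.rpow_mul (by positivity)]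
  refine Real.rpow_le_rpow_of_exponent_le hN1 ?_
  rw [hη, div_mul_eq_mul_div, div_le_iff₀ (by positivity)]
  nlinarith

theorem add_part (r : ℕ) (hr : 1 ≤ r) (t : Fin r → ℚ) (ht : ∀ i, 0 < t i) (ε : ℝ) (hε : 0 < ε)
    (hε1 : ε ≤ 1) : ∃ c : ℝ, 0 < c ∧ ∀ (N : ℕ) (A : Finset ℤ), 1 ≤ N → A.card ≤ N →
      (∀ a ∈ A, (4 / ε * Real.exp (6 / ε) * Real.log (2 * N)) ^ r ≤
        ((A.filter fun x : ℤ => ∃ n : Fin r → ℤ, (x : ℚ) = a * ∏ i, t i ^ n i).card : ℝ)) →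
      ∀ X : Finset ℤ, X.Nonempty →
        c * ((N : ℝ) * X.card) ^ (-(2 * ε)) * (A.card * X.card) ≤ ((A + X).card : ℝ) := by
  obtain ⟨K, hK⟩ : ∃ K : ℝ, K = 4 / ε * Real.exp (6 / ε) := ⟨_, rfl⟩
  have hK0 : 0 < K := by rw [hK]; positivity
  obtain ⟨C, hC, hpl⟩ := polylog (r * K) ε (by positivity) hε (2 * r)
  refine ⟨1 / C, by positivity, fun N A hN hAN hfib X hX => ?_⟩
  rw [← hK] at hfib
  have hN1 : (1 : ℝ) ≤ N := by exact_mod_cast hN
  have hX1 : (1 : ℝ) ≤ X.card := by exact_mod_cast hX.card_pos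
  rcases A.eq_empty_or_nonempty with rfl | hA
  · simp
  have hA1 : (1 : ℝ) ≤ A.card := by exact_mod_cast hA.card_pos
  have hAN' : (A.card : ℝ) ≤ N := by exact_mod_cast hAN
  have hlog : Real.log (2 * A.card) ≤ Real.log (2 * N) :=
    Real.log_le_log (by linarith) (by linarith)
  have hlog0 : 0 ≤ Real.log (2 * A.card) := Real.log_nonneg (by linarith)
  have h1 := Pool.Agent.W219.SP.fibre_one r hr ε hε hε1 t ht A X hA hX
    (K * Real.log (2 * A.card)) (by rw [hK]) (fun a ha => by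
      refine le_trans ?_ (hfib a ha)
      refine pow_le_pow_left₀ (by positivity) ?_ r
      exact mul_le_mul_of_nonneg_left hlog hK0.le)
  have h2 : ((r : ℝ) * (K * Real.log (2 * A.card)) + 1) ^ (2 * r) ≤ C * (N : ℝ) ^ ε := by
    refine le_trans ?_ (hpl N hN)
    refine pow_le_pow_left₀ (by positivity) ?_ _
    have := mul_le_mul_of_nonneg_left hlog (show 0 ≤ (r : ℝ) * K by positivity)
    linarith
  have hS0 : (0 : ℝ) ≤ ((A + X).card : ℝ) := Nat.cast_nonneg _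
  have h3 : ((A.card : ℝ) * X.card) ^ (1 - ε) ≤ C * (N : ℝ) ^ ε * ((A + X).card : ℝ) :=
    h1.trans (mul_le_mul_of_nonneg_right h2 hS0)
  have hAX : 0 < (A.card : ℝ) * X.card := by positivity
  have hNX : 1 ≤ (N : ℝ) * X.card := one_le_mul_of_one_le_of_one_le hN1 hX1
  have hNX0 : 0 < (N : ℝ) * X.card := by linarith
  have e1 : ((A.card : ℝ) * X.card) ^ (1 - ε) =
      ((A.card : ℝ) * X.card) ^ (-ε) * (A.card * X.card) := by
    rw [sub_eq_neg_add, Real.rpow_add hAX, Real.rpow_one]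
  have h4 : ((N : ℝ) * X.card) ^ (-ε) ≤ ((A.card : ℝ) * X.card) ^ (-ε) := by
    refine Real.rpow_le_rpow_of_nonpos hAX ?_ (by linarith)
    exact mul_le_mul_of_nonneg_right hAN' (by linarith)
  have h5 : ((N : ℝ) * X.card) ^ (-ε) * (N : ℝ) ^ ε ≤ 1 := by
    have h6 : (N : ℝ) ^ ε ≤ ((N : ℝ) * X.card) ^ ε :=
      Real.rpow_le_rpow (by linarith) (by nlinarith) hε.le
    calc ((N : ℝ) * X.card) ^ (-ε) * (N : ℝ) ^ ε
        ≤ ((N : ℝ) * X.card) ^ (-ε) * ((N : ℝ) * X.card) ^ ε :=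
          mul_le_mul_of_nonneg_left h6 (by positivity)
      _ = 1 := by rw [← Real.rpow_add hNX0]; simp
  have e2 : ((N : ℝ) * X.card) ^ (-(2 * ε)) =
      ((N : ℝ) * X.card) ^ (-ε) * ((N : ℝ) * X.card) ^ (-ε) := by
    rw [← Real.rpow_add hNX0]
    congr 1
    ring
  rw [e1] at h3
  have hp0 : 0 ≤ ((N : ℝ) * X.card) ^ (-ε) := by positivity
  calc 1 / C * ((N : ℝ) * X.card) ^ (-(2 * ε)) * (A.card * X.card)
      = 1 / C * ((N : ℝ) * X.card) ^ (-ε) *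
          (((N : ℝ) * X.card) ^ (-ε) * (A.card * X.card)) := by rw [e2]; ring
    _ ≤ 1 / C * ((N : ℝ) * X.card) ^ (-ε) *
          (((A.card : ℝ) * X.card) ^ (-ε) * (A.card * X.card)) :=
        mul_le_mul_of_nonneg_left (mul_le_mul_of_nonneg_right h4 hAX.le) (by positivity)
    _ ≤ 1 / C * ((N : ℝ) * X.card) ^ (-ε) * (C * (N : ℝ) ^ ε * ((A + X).card : ℝ)) :=
        mul_le_mul_of_nonneg_left h3 (by positivity)
    _ = (((N : ℝ) * X.card) ^ (-ε) * (N : ℝ) ^ ε) * ((A + X).card : ℝ) := by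
        field_simp
    _ ≤ 1 * ((A + X).card : ℝ) := mul_le_mul_of_nonneg_right h5 hS0
    _ = ((A + X).card : ℝ) := one_mul _

end Pool.Agent.K3h55.DU
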