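import Mathlib
import Pool.Agent.K3h55.DU.Parts

set_option autoImplicit false

/-!
# Short sums of S-units: every set is the union of an additively and of a multiplicatively free set
-/

namespace Pool.Agent.K3h55.DU

open Finset Pool.Agent.TH551.SU Pool.Agent.TH539.MQ Pool.Agent.Y359.PE Pool.Agent.R849.RF
open scoped Classical Pointwise

variable {s : ℕ} {b : Fin s → ℕ}

/-- the elements of `A` of the form `a ∏ b ^ n` -/
noncomputable def fib (b : Fin s → ℕ) (A : Finset ℤ) (a : ℤ) : Finset ℤ :=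
  A.filter fun x : ℤ => ∃ n : Fin s → ℤ, (x : ℚ) = a * ∏ i, (b i : ℚ) ^ n i

lemma fib_eq (hb : ∀ v, (b v).Prime) {A : Finset ℤ} {a x : ℤ} (hx : x ∈ fib b A a) :
    fib b A x = fib b A a := by
  unfold fib at hx ⊢
  rw [mem_filter] at hx
  obtain ⟨_, n, hn⟩ := hx
  have hb0 : ∀ v, (b v : ℚ) ≠ 0 := fun v => by exact_mod_cast (hb v).ne_zero
  have hadd : ∀ m m' : Fin s → ℤ, ∏ i, (b i : ℚ) ^ (m + m') i =
      (∏ i, (b i : ℚ) ^ m i) * ∏ i, (b i : ℚ) ^ m' i := by
    intro m m'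
    rw [← prod_mul_distrib]
    exact prod_congr rfl fun i _ => zpow_add₀ (hb0 i) _ _
  have hneg : (∏ i, (b i : ℚ) ^ n i) * ∏ i, (b i : ℚ) ^ (-n) i = 1 := by
    rw [← hadd]
    simp
  refine filter_congr fun y _ => ?_
  constructor
  · rintro ⟨m, hm⟩
    exact ⟨n + m, by rw [hadd, hm, hn]; ring⟩
  · rintro ⟨m, hm⟩
    refine ⟨m + -n, ?_⟩
    rw [hadd, hm, hn]
    linear_combination (-(a : ℚ) * ∏ i, (b i : ℚ) ^ m i) * hneg

/-- few elements in each coset of the group of units -/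
lemma coset_card (hb : ∀ v, (b v).Prime) (A A2 : Finset ℤ) (hA2 : A2 ⊆ A) (T : ℝ)
    (hT : ∀ a ∈ A2, ((fib b A a).card : ℝ) ≤ T) (hT0 : 0 ≤ T) (lam : ℚ) (hlam : lam ≠ 0) (ρ : ℚ) :
    ((A2.filter fun a : ℤ => ∃ t, IsSU b t ∧ lam * a = t * ρ).card : ℝ) ≤ 2 * T := by
  obtain ⟨S, hS⟩ : ∃ S : Finset ℤ, S = A2.filter fun a : ℤ => ∃ t, IsSU b t ∧ lam * a = t * ρ :=
    ⟨_, rfl⟩
  rw [← hS]
  rcases S.eq_empty_or_nonempty with h0 | ⟨a0, ha0⟩
  · rw [h0]
    simp
    exact hT0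
  have hmem : ∀ a ∈ S, a ∈ A2 ∧ ∃ t, IsSU b t ∧ lam * a = t * ρ := by
    intro a ha
    rw [hS, mem_filter] at ha
    exact ha
  obtain ⟨ha0A, t0, ht0, hρ0⟩ := hmem a0 ha0
  have ht00 : t0 ≠ 0 := isSU_ne b hb ht0
  -- two elements differ by a unit
  have hrel : ∀ a ∈ S, ∃ n : Fin s → ℤ, (a : ℚ) = a0 * ∏ i, (b i : ℚ) ^ n i ∨
      (a : ℚ) = -(a0 * ∏ i, (b i : ℚ) ^ n i) := by
    intro a ha
    obtain ⟨_, t, ht, hρ⟩ := hmem a ha
    obtain ⟨σ, e, hσ, he⟩ := isSU_div hb ht ht0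
    have h1 : (a : ℚ) = a0 * (t / t0) := by
      have h2 : lam * ((a : ℚ) - a0 * (t / t0)) = 0 := by
        have h3 : lam * a0 * (t / t0) = t * ρ := by
          rw [hρ0]
          field_simp
        linear_combination hρ - h3
      rcases mul_eq_zero.1 h2 with h4 | h4
      · exact absurd h4 hlam
      · linarith
    refine ⟨e, ?_⟩
    rcases hσ with rfl | rfl
    · left
      rw [h1, he]
      push_cast
      ring
    · right
      rw [h1, he]
      push_cast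
      ring
  let Sp := S.filter fun a : ℤ => ∃ n : Fin s → ℤ, (a : ℚ) = a0 * ∏ i, (b i : ℚ) ^ n i
  let Sn := S.filter fun a : ℤ => ∃ n : Fin s → ℤ, (a : ℚ) = -(a0 * ∏ i, (b i : ℚ) ^ n i)
  have hSU : S ⊆ Sp ∪ Sn := by
    intro a ha
    obtain ⟨n, h1 | h1⟩ := hrel a ha
    · exact mem_union_left _ (mem_filter.2 ⟨ha, n, h1⟩)
    · exact mem_union_right _ (mem_filter.2 ⟨ha, n, h1⟩)
  have hp : (Sp.card : ℝ) ≤ T := by
    refine le_trans ?_ (hT a0 ha0A)
    have : Sp ⊆ fib b A a0 := by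
      intro a ha
      obtain ⟨h1, h2⟩ := mem_filter.1 ha
      exact mem_filter.2 ⟨hA2 (hmem a h1).1, h2⟩
    exact_mod_cast card_le_card this
  have hn : (Sn.card : ℝ) ≤ T := by
    rcases Sn.eq_empty_or_nonempty with h0 | ⟨a1, ha1⟩
    · rw [h0]
      simpa using hT0
    obtain ⟨h1, n1, hn1⟩ := mem_filter.1 ha1
    refine le_trans ?_ (hT a1 (hmem a1 h1).1)
    have hb0 : ∀ v, (b v : ℚ) ≠ 0 := fun v => by exact_mod_cast (hb v).ne_zero
    have : Sn ⊆ fib b A a1 := by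
      intro a ha
      obtain ⟨h2, n2, hn2⟩ := mem_filter.1 ha
      refine mem_filter.2 ⟨hA2 (hmem a h2).1, n2 - n1, ?_⟩
      have hdiv : ∏ i, (b i : ℚ) ^ (n2 - n1) i =
          (∏ i, (b i : ℚ) ^ n2 i) / ∏ i, (b i : ℚ) ^ n1 i := by
        rw [← prod_div_distrib]
        exact prod_congr rfl fun i _ => zpow_sub₀ (hb0 i) _ _
      have hne : ∏ i, (b i : ℚ) ^ n1 i ≠ 0 := prod_ne_zero_iff.2 fun i _ => zpow_ne_zero _ (hb0 i)
      rw [hdiv, hn1, hn2]
      field_simp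
    exact_mod_cast card_le_card this
  have h1 : (S.card : ℝ) ≤ Sp.card + Sn.card := by
    exact_mod_cast (card_le_card hSU).trans (card_union_le _ _)
  linarith

/-- **The decomposition.** -/
theorem decomp (b : Fin s → ℕ) (hs : 1 ≤ s) (hb : ∀ v, (b v).Prime) (hbi : Function.Injective b)
    (k : ℕ) (B : ℝ) (hB : 0 ≤ B) (ε : ℝ) (hε : 0 < ε) (J : ℕ) (hJ : 1 ≤ J) : ∃ c : ℝ, 0 < c ∧
      ∀ (A : Finset ℤ), A.Nonempty → (0 : ℤ) ∉ A → ∀ h : ℕ, 1 ≤ h → (h : ℝ) ≤ (A.card : ℝ) ^ B →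
      ∀ lam : ℚ, lam ≠ 0 → (∀ a ∈ A, Sh b k h (lam * a)) →
      ∃ A1 ⊆ A,
        (∀ X : Finset ℤ, X.Nonempty →
          c * ((A.card : ℝ) * X.card) ^ (-ε) * (A1.card * X.card) ≤ ((A1 + X).card : ℝ)) ∧
        (∀ X : Finset ℂ, X.Nonempty → (0 : ℂ) ∉ X →
          c * ((A.card : ℝ) * X.card) ^ (-ε) * ((A \ A1).card * X.card) ≤
            ((AB X (A \ A1)).card : ℝ)) ∧
        (∀ v : ℤ, v ≠ 0 →
          c * (((Fintype.piFinset fun _ : Fin J => A \ A1).filter fun f => ∏ i, f i = v).card : ℝ) ≤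
            (A.card : ℝ) ^ ε) := by
  have hJ0 : (1 : ℝ) ≤ J := by exact_mod_cast hJ
  obtain ⟨e, he⟩ : ∃ e : ℝ, e = min ε 1 / (4 * J) := ⟨_, rfl⟩
  have hmin0 : 0 < min ε 1 := lt_min hε one_pos
  have he0 : 0 < e := by
    rw [he]
    positivity
  have heJ : 4 * J * e = min ε 1 := by
    rw [he]
    field_simp
  have heJ' : e ≤ J * e := by nlinarith
  have heε : 4 * e ≤ ε := by
    have := min_le_left ε 1
    nlinarith
  have he1 : e ≤ 1 := by
    have := min_le_right ε 1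
    nlinarith
  have heJε : 2 * J * e ≤ ε := by
    have := min_le_left ε 1
    nlinarith
  obtain ⟨m, hm⟩ := exists_nat_ge (1 / e)
  have hm1 : 1 ≤ m := by
    have h1 : (0 : ℝ) < 1 / e := by positivity
    have h2 : (0 : ℝ) < m := lt_of_lt_of_le h1 hm
    exact_mod_cast h2
  have hme : 1 / (m : ℝ) ≤ e := by
    have hm0 : (0 : ℝ) < m := by exact_mod_cast hm1
    rw [div_le_iff₀ hm0]
    rw [div_le_iff₀ he0] at hm
    linarith
  obtain ⟨c1, hc1, hadd⟩ := add_part s hs (fun i => (b i : ℚ))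
    (fun i => by exact_mod_cast (hb i).pos) e he0 he1
  obtain ⟨C2, hC2, hmul⟩ := mult_part b hb hbi k m hm1 (e / (B + 1)) (by positivity)
  obtain ⟨C4, hC4, hrep⟩ := rep_part b hb hbi k J hJ (e / (B + 1)) (by positivity)
  obtain ⟨K, hK⟩ : ∃ K : ℝ, K = 4 / e * Real.exp (6 / e) := ⟨_, rfl⟩
  have hK0 : 0 < K := by rw [hK]; positivity
  obtain ⟨C3, hC3, hpl⟩ := polylog K e hK0.le he0 s
  refine ⟨min (min c1 (1 / (C2 * (2 * C3)))) (1 / (C4 * (2 * C3)) ^ J),
    lt_min (lt_min hc1 (by positivity)) (by positivity), ?_⟩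
  intro A hA h0 h hh hhB lam hlam hAS
  have hN1' : 1 ≤ A.card := hA.card_pos
  have hN1 : (1 : ℝ) ≤ A.card := by exact_mod_cast hN1'
  have hN0 : (0 : ℝ) < A.card := by linarith
  obtain ⟨M, hM⟩ : ∃ M : ℝ, M = (K * Real.log (2 * A.card)) ^ s := ⟨_, rfl⟩
  have hlog0 : 0 ≤ Real.log (2 * A.card) := Real.log_nonneg (by linarith)
  have hM0 : 0 ≤ M := by rw [hM]; positivity
  have hMC : M ≤ C3 * (A.card : ℝ) ^ e := by
    rw [hM]
    refine le_trans (pow_le_pow_left₀ (by positivity) ?_ s) (hpl A.card hN1')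
    linarith
  obtain ⟨A1, hA1⟩ : ∃ A1 : Finset ℤ, A1 = A.filter fun a => M ≤ ((fib b A a).card : ℝ) := ⟨_, rfl⟩
  have hA1A : A1 ⊆ A := by rw [hA1]; exact filter_subset _ _
  have hfibA1 : ∀ a ∈ A1, fib b A1 a = fib b A a := by
    intro a ha
    ext x
    constructor
    · intro hx
      exact mem_filter.2 ⟨hA1A (mem_filter.1 hx).1, (mem_filter.1 hx).2⟩
    · intro hx
      refine mem_filter.2 ⟨?_, (mem_filter.1 hx).2⟩
      rw [hA1, mem_filter] at ha ⊢
      refine ⟨(mem_filter.1 hx).1, ?_⟩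
      rw [fib_eq hb hx]
      exact ha.2
  have hhe : (h : ℝ) ^ (e / (B + 1)) ≤ (A.card : ℝ) ^ e := by
    have h3 : (0 : ℝ) ≤ h := Nat.cast_nonneg _
    refine (Real.rpow_le_rpow h3 hhB (by positivity)).trans ?_
    rw [← Real.rpow_mul hN0.le]
    refine Real.rpow_le_rpow_of_exponent_le hN1 ?_
    rw [mul_div_assoc', div_le_iff₀ (by positivity)]
    nlinarith
  refine ⟨A1, hA1A, ?_, ?_, ?_⟩
  · intro X hX
    have h1 := hadd A.card A1 hN1' (card_le_card hA1A) (fun a ha => by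
      rw [← hK, ← hM]
      have h2 : M ≤ ((fib b A a).card : ℝ) := by
        rw [hA1, mem_filter] at ha
        exact ha.2
      rw [← hfibA1 a ha] at h2
      exact h2) X hX
    refine le_trans ?_ h1
    have hX1 : (1 : ℝ) ≤ X.card := by exact_mod_cast hX.card_pos
    have hNX : 1 ≤ (A.card : ℝ) * X.card := one_le_mul_of_one_le_of_one_le hN1 hX1
    have h3 : ((A.card : ℝ) * X.card) ^ (-ε) ≤ ((A.card : ℝ) * X.card) ^ (-(2 * e)) :=
      Real.rpow_le_rpow_of_exponent_le hNX (by linarith)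
    have h4 : (0 : ℝ) ≤ (A1.card : ℝ) * X.card := by positivity
    exact mul_le_mul_of_nonneg_right
      (mul_le_mul ((min_le_left _ _).trans (min_le_left _ _)) h3 (by positivity) hc1.le) h4
  · intro X hX hX0
    have hX1 : (1 : ℝ) ≤ X.card := by exact_mod_cast hX.card_pos
    have hX00 : (0 : ℝ) < X.card := by linarith
    obtain ⟨A2, hA2⟩ : ∃ A2 : Finset ℤ, A2 = A \ A1 := ⟨_, rfl⟩
    rw [← hA2]
    have hA2A : A2 ⊆ A := by rw [hA2]; exact sdiff_subset
    have hA2T : ∀ a ∈ A2, ((fib b A a).card : ℝ) ≤ M := by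
      intro a ha
      rw [hA2, mem_sdiff] at ha
      by_contra hcon
      push Not at hcon
      exact ha.2 (by rw [hA1]; exact mem_filter.2 ⟨ha.1, hcon.le⟩)
    have h02 : (0 : ℤ) ∉ A2 := fun h => h0 (hA2A h)
    have h1 := hmul h hh (2 * M) A2 h02 lam hlam (fun a ha => hAS a (hA2A ha))
      (coset_card hb A A2 hA2A M hA2T hM0 lam hlam)
    have h2 := plun X hX hX0 A2 h02 m
    obtain ⟨Q, hQ⟩ : ∃ Q : ℝ, Q = C2 * (2 * C3) * ((A.card : ℝ) ^ e * (A.card : ℝ) ^ e) := ⟨_, rfl⟩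
    have hQ1 : C2 * (h : ℝ) ^ (e / (B + 1)) * (2 * M) ≤ Q := by
      calc C2 * (h : ℝ) ^ (e / (B + 1)) * (2 * M)
          ≤ C2 * (A.card : ℝ) ^ e * (2 * (C3 * (A.card : ℝ) ^ e)) := by
            refine mul_le_mul (mul_le_mul_of_nonneg_left hhe hC2.le) ?_ (by positivity)
              (by positivity)
            linarith
        _ = Q := by rw [hQ]; ring
    have hQ0 : 0 < Q := by rw [hQ]; positivity
    have h3 : (A2.card : ℝ) ^ m ≤ Q ^ m * (pk m A2).card := by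
      refine h1.trans (mul_le_mul_of_nonneg_right ?_ (by positivity))
      exact pow_le_pow_left₀ (by positivity) hQ1 m
    obtain ⟨Z, hZ⟩ : ∃ Z : ℝ, Z = ((AB X A2).card : ℝ) := ⟨_, rfl⟩
    have hZ0 : 0 ≤ Z := by rw [hZ]; positivity
    rw [← hZ] at h2 ⊢
    have hroot : (((X.card : ℝ) ^ (1 / (m : ℝ)))) ^ m = X.card := by
      rw [← Real.rpow_natCast, ← Real.rpow_mul hX00.le]
      have : (m : ℝ) ≠ 0 := by positivity
      rw [one_div_mul_cancel this, Real.rpow_one]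
    have h4 : ((A2.card : ℝ) * X.card) ^ m ≤ (Q * (Z * (X.card : ℝ) ^ (1 / (m : ℝ)))) ^ m := by
      rw [mul_pow, mul_pow, mul_pow Z, hroot]
      calc (A2.card : ℝ) ^ m * (X.card : ℝ) ^ m
          ≤ Q ^ m * (pk m A2).card * (X.card : ℝ) ^ m :=
            mul_le_mul_of_nonneg_right h3 (by positivity)
        _ = Q ^ m * ((pk m A2).card * (X.card : ℝ) ^ m) := by ring
        _ ≤ Q ^ m * (Z ^ m * X.card) := mul_le_mul_of_nonneg_left h2 (by positivity)
    have h5 : (A2.card : ℝ) * X.card ≤ Q * (Z * (X.card : ℝ) ^ (1 / (m : ℝ))) :=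
      le_of_pow_le_pow_left₀ (by omega) (by positivity) h4
    have h6 : (X.card : ℝ) ^ (1 / (m : ℝ)) ≤ (X.card : ℝ) ^ e :=
      Real.rpow_le_rpow_of_exponent_le hX1 hme
    have hNX : 1 ≤ (A.card : ℝ) * X.card := one_le_mul_of_one_le_of_one_le hN1 hX1
    have hNX0 : 0 < (A.card : ℝ) * X.card := by linarith
    have h7 : (A2.card : ℝ) * X.card ≤
        C2 * (2 * C3) * ((A.card : ℝ) * X.card) ^ ε * Z := by
      refine h5.trans ?_
      have h8 : (A.card : ℝ) ^ e * (A.card : ℝ) ^ e * (X.card : ℝ) ^ (1 / (m : ℝ)) ≤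
          ((A.card : ℝ) * X.card) ^ ε := by
        have h9 : (A.card : ℝ) ^ e ≤ ((A.card : ℝ) * X.card) ^ e :=
          Real.rpow_le_rpow hN0.le (by nlinarith) he0.le
        have h10 : (X.card : ℝ) ^ e ≤ ((A.card : ℝ) * X.card) ^ e :=
          Real.rpow_le_rpow hX00.le (by nlinarith) he0.le
        calc (A.card : ℝ) ^ e * (A.card : ℝ) ^ e * (X.card : ℝ) ^ (1 / (m : ℝ))
            ≤ ((A.card : ℝ) * X.card) ^ e * ((A.card : ℝ) * X.card) ^ e *
                ((A.card : ℝ) * X.card) ^ e := by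
              refine mul_le_mul (mul_le_mul h9 h9 (by positivity) (by positivity))
                (h6.trans h10) (by positivity) (by positivity)
          _ = ((A.card : ℝ) * X.card) ^ (e + e + e) := by
              rw [Real.rpow_add hNX0, Real.rpow_add hNX0]
          _ ≤ ((A.card : ℝ) * X.card) ^ ε :=
              Real.rpow_le_rpow_of_exponent_le hNX (by linarith)
      calc Q * (Z * (X.card : ℝ) ^ (1 / (m : ℝ)))
          = C2 * (2 * C3) * ((A.card : ℝ) ^ e * (A.card : ℝ) ^ e *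
              (X.card : ℝ) ^ (1 / (m : ℝ))) * Z := by rw [hQ]; ring
        _ ≤ C2 * (2 * C3) * ((A.card : ℝ) * X.card) ^ ε * Z := by
            refine mul_le_mul_of_nonneg_right ?_ hZ0
            exact mul_le_mul_of_nonneg_left h8 (by positivity)
    have hpe : ((A.card : ℝ) * X.card) ^ (-ε) * ((A.card : ℝ) * X.card) ^ ε = 1 := by
      rw [← Real.rpow_add hNX0]
      simp
    have hp0 : 0 ≤ ((A.card : ℝ) * X.card) ^ (-ε) := by positivity
    calc min (min c1 (1 / (C2 * (2 * C3)))) (1 / (C4 * (2 * C3)) ^ J) *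
          ((A.card : ℝ) * X.card) ^ (-ε) * (A2.card * X.card)
        ≤ 1 / (C2 * (2 * C3)) * ((A.card : ℝ) * X.card) ^ (-ε) * (A2.card * X.card) :=
          mul_le_mul_of_nonneg_right
            (mul_le_mul_of_nonneg_right ((min_le_left _ _).trans (min_le_right _ _)) hp0)
            (by positivity)
      _ ≤ 1 / (C2 * (2 * C3)) * ((A.card : ℝ) * X.card) ^ (-ε) *
            (C2 * (2 * C3) * ((A.card : ℝ) * X.card) ^ ε * Z) :=
          mul_le_mul_of_nonneg_left h7 (by positivity)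
      _ = (((A.card : ℝ) * X.card) ^ (-ε) * ((A.card : ℝ) * X.card) ^ ε) * Z := by
          field_simp
      _ = Z := by rw [hpe, one_mul]
  · intro v hv
    have hA2A : A \ A1 ⊆ A := sdiff_subset
    have hA2T : ∀ a ∈ A \ A1, ((fib b A a).card : ℝ) ≤ M := by
      intro a ha
      rw [mem_sdiff] at ha
      by_contra hcon
      push Not at hcon
      exact ha.2 (by rw [hA1]; exact mem_filter.2 ⟨ha.1, hcon.le⟩)
    have h1 := hrep h hh (2 * M) (A \ A1) lam hlam (fun a ha => hAS a (hA2A ha))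
      (coset_card hb A (A \ A1) hA2A M hA2T hM0 lam hlam) v hv
    have hQ1 : C4 * (h : ℝ) ^ (e / (B + 1)) * (2 * M) ≤
        C4 * (2 * C3) * ((A.card : ℝ) ^ (2 * e)) := by
      calc C4 * (h : ℝ) ^ (e / (B + 1)) * (2 * M)
          ≤ C4 * (A.card : ℝ) ^ e * (2 * (C3 * (A.card : ℝ) ^ e)) := by
            refine mul_le_mul (mul_le_mul_of_nonneg_left hhe hC4.le) ?_ (by positivity)
              (by positivity)
            linarith
        _ = C4 * (2 * C3) * ((A.card : ℝ) ^ (2 * e)) := by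
            rw [two_mul e, Real.rpow_add hN0]
            ring
    have h2 : (C4 * (h : ℝ) ^ (e / (B + 1)) * (2 * M)) ^ J ≤
        (C4 * (2 * C3)) ^ J * (A.card : ℝ) ^ ε := by
      refine (pow_le_pow_left₀ (by positivity) hQ1 J).trans ?_
      rw [mul_pow]
      refine mul_le_mul_of_nonneg_left ?_ (by positivity)
      rw [← Real.rpow_natCast, ← Real.rpow_mul hN0.le]
      exact Real.rpow_le_rpow_of_exponent_le hN1 (by linarith)
    have h3 := h1.trans h2
    have hP : 0 < (C4 * (2 * C3)) ^ J := by positivity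
    calc min (min c1 (1 / (C2 * (2 * C3)))) (1 / (C4 * (2 * C3)) ^ J) *
          (((Fintype.piFinset fun _ : Fin J => A \ A1).filter fun f => ∏ i, f i = v).card : ℝ)
        ≤ 1 / (C4 * (2 * C3)) ^ J *
          (((Fintype.piFinset fun _ : Fin J => A \ A1).filter fun f => ∏ i, f i = v).card : ℝ) :=
          mul_le_mul_of_nonneg_right (min_le_right _ _) (by positivity)
      _ ≤ 1 / (C4 * (2 * C3)) ^ J * ((C4 * (2 * C3)) ^ J * (A.card : ℝ) ^ ε) :=
          mul_le_mul_of_nonneg_left h3 (by positivity)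
      _ = (A.card : ℝ) ^ ε := by field_simp

end Pool.Agent.K3h55.DU
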