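import Mathlib
import Pool.Agent.K3h55.DU.Decomp

set_option autoImplicit false

/-!
# The k-fold sum-product conjecture for short sums of S-units
-/

namespace Pool.Agent.K3h55.DU

open Finset Pool.Agent.TH551.SU Pool.Agent.TH539.MQ Pool.Agent.Y359.PE Pool.Agent.R849.RF
open scoped Classical Pointwise

variable {s : ℕ} {b : Fin s → ℕ}

lemma iterate {f : ℕ → ℝ} {c N a ε : ℝ} (hc : 0 < c) (hN : 1 ≤ N) (ha : 0 ≤ a) (hε : 0 < ε)
    (h0 : 1 ≤ f 0) (hf : ∀ j, 1 ≤ f j ∧ f j ≤ N ^ j)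
    (hstep : ∀ j, c * (N * f j) ^ (-ε) * (a * f j) ≤ f (j + 1)) (m : ℕ) :
    c ^ m * N ^ (-(ε * (m : ℝ) ^ 2)) * a ^ m ≤ f m := by
  have hN0 : 0 < N := by linarith
  induction m with
  | zero => simpa using h0
  | succ j ih =>
    have h1 := hstep j
    obtain ⟨hf1, hf2⟩ := hf j
    have hfj : 0 < f j := by linarith
    have h2 : (N ^ (j + 1)) ^ (-ε) ≤ (N * f j) ^ (-ε) := by
      refine Real.rpow_le_rpow_of_nonpos (by positivity) ?_ (by linarith)
      rw [pow_succ']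
      exact mul_le_mul_of_nonneg_left hf2 hN0.le
    have h3 : (N ^ (j + 1)) ^ (-ε) = N ^ (-(ε * ((j : ℝ) + 1))) := by
      rw [← Real.rpow_natCast, ← Real.rpow_mul hN0.le]
      congr 1
      push_cast
      ring
    have h4 : N ^ (-(ε * ((j + 1 : ℕ) : ℝ) ^ 2)) ≤
        N ^ (-(ε * ((j : ℝ) + 1))) * N ^ (-(ε * (j : ℝ) ^ 2)) := by
      rw [← Real.rpow_add hN0]
      refine Real.rpow_le_rpow_of_exponent_le hN ?_
      push_cast
      have hj : (0 : ℝ) ≤ j := Nat.cast_nonneg _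
      nlinarith [mul_nonneg hε.le hj]
    calc c ^ (j + 1) * N ^ (-(ε * ((j + 1 : ℕ) : ℝ) ^ 2)) * a ^ (j + 1)
        ≤ c ^ (j + 1) * (N ^ (-(ε * ((j : ℝ) + 1))) * N ^ (-(ε * (j : ℝ) ^ 2))) * a ^ (j + 1) :=
          mul_le_mul_of_nonneg_right (mul_le_mul_of_nonneg_left h4 (by positivity))
            (by positivity)
      _ = c * N ^ (-(ε * ((j : ℝ) + 1))) * (a * (c ^ j * N ^ (-(ε * (j : ℝ) ^ 2)) * a ^ j)) := by
          ring
      _ ≤ c * N ^ (-(ε * ((j : ℝ) + 1))) * (a * f j) :=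
          mul_le_mul_of_nonneg_left (mul_le_mul_of_nonneg_left ih ha) (by positivity)
      _ ≤ c * (N * f j) ^ (-ε) * (a * f j) := by
          refine mul_le_mul_of_nonneg_right ?_ (by positivity)
          refine mul_le_mul_of_nonneg_left ?_ hc.le
          rw [← h3]
          exact h2
      _ ≤ f (j + 1) := h1

lemma card_sk_le (m : ℕ) (A : Finset ℤ) : (sk m A).card ≤ A.card ^ m := by
  unfold sk
  refine card_image_le.trans (le_of_eq ?_)
  rw [Fintype.card_piFinset, prod_const, card_univ, Fintype.card_fin]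

lemma card_pk_le' (m : ℕ) (A : Finset ℤ) : (pk m A).card ≤ A.card ^ m := by
  unfold pk
  refine card_image_le.trans (le_of_eq ?_)
  rw [Fintype.card_piFinset, prod_const, card_univ, Fintype.card_fin]

lemma sk_nonempty {k : ℕ} {A : Finset ℤ} (h : A.Nonempty) : (sk k A).Nonempty := by
  obtain ⟨a, ha⟩ := h
  exact ⟨_, mem_image_of_mem _ (Fintype.mem_piFinset.2 fun _ => ha)⟩

lemma add_sk (m : ℕ) (A : Finset ℤ) : A + sk m A ⊆ sk (m + 1) A := by
  intro z hz
  obtain ⟨x, hx, y, hy, rfl⟩ := mem_add.1 hz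
  obtain ⟨f, hf, rfl⟩ := mem_image.1 hy
  rw [Fintype.mem_piFinset] at hf
  refine mem_image.2 ⟨Fin.cons x f, ?_, ?_⟩
  · rw [Fintype.mem_piFinset]
    intro i
    refine Fin.cases ?_ (fun j => ?_) i
    · simpa using hx
    · simpa using hf j
  · rw [Fin.sum_univ_succ]
    simp

lemma AB_pk (m : ℕ) (A : Finset ℤ) : AB (ci (pk m A)) A ⊆ ci (pk (m + 1) A) := by
  intro z hz
  obtain ⟨⟨x, y⟩, hxy, rfl⟩ := mem_image.1 hz
  rw [mem_product] at hxy
  obtain ⟨hx, hy⟩ := hxy
  obtain ⟨v, hv, hvx⟩ := mem_image.1 hx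
  obtain ⟨f, hf, rfl⟩ := mem_image.1 hv
  rw [Fintype.mem_piFinset] at hf
  refine mem_image.2 ⟨y * ∏ i, f i, mem_image.2 ⟨Fin.cons y f, ?_, ?_⟩, ?_⟩
  · rw [Fintype.mem_piFinset]
    intro i
    refine Fin.cases ?_ (fun j => ?_) i
    · simpa using hy
    · simpa using hf j
  · rw [Fin.prod_univ_succ]
    simp
  · simp only at hvx ⊢
    rw [← hvx]
    push_cast
    ring

lemma card_ci (A : Finset ℤ) : (ci A).card = A.card :=
  card_image_of_injective _ Int.cast_injective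

/-- **The `m`-fold sum-product conjecture for sets with a large part of short sums.** -/
theorem sp (b : Fin s → ℕ) (hs : 1 ≤ s) (hb : ∀ v, (b v).Prime) (hbi : Function.Injective b)
    (k m : ℕ) (hm : 1 ≤ m) (B : ℝ) (hB : 0 ≤ B) (ε : ℝ) (hε : 0 < ε) :
    ∃ δ : ℝ, 0 < δ ∧ ∃ c : ℝ, 0 < c ∧ ∀ A A' : Finset ℤ, A.Nonempty → A' ⊆ A →
      (A.card : ℝ) ^ (1 - δ) ≤ A'.card → ∀ h : ℕ, 1 ≤ h → (h : ℝ) ≤ (A.card : ℝ) ^ B →
      ∀ lam : ℚ, lam ≠ 0 → (∀ a ∈ A', Sh b k h (lam * a)) →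
      c * (A.card : ℝ) ^ ((m : ℝ) - ε) ≤ max ((sk m A).card : ℝ) ((pk m A).card : ℝ) := by
  obtain ⟨η, hη⟩ : ∃ η : ℝ, η = min ε 1 := ⟨_, rfl⟩
  have hη0 : 0 < η := by rw [hη]; exact lt_min hε one_pos
  have hηε : η ≤ ε := by rw [hη]; exact min_le_left _ _
  have hη1 : η ≤ 1 := by rw [hη]; exact min_le_right _ _
  have hm0 : (0 : ℝ) < m := by exact_mod_cast hm
  have hm1 : (1 : ℝ) ≤ m := by exact_mod_cast hm
  obtain ⟨c, hc, hdec⟩ := decomp b hs hb hbi k (4 * B) (by linarith) (η / (2 * m ^ 2))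
    (by positivity) 1 le_rfl
  refine ⟨η / (2 * m), by positivity,
    min ((c / 2) ^ m / 2 ^ m) (1 / 16 ^ m), lt_min (by positivity) (by positivity), ?_⟩
  intro A A' hA hAA hbig h hh hhB lam hlam hSh
  have hN1 : (1 : ℝ) ≤ A.card := by exact_mod_cast hA.card_pos
  have hN0 : (0 : ℝ) < A.card := by linarith
  have hsk1 : (1 : ℝ) ≤ (sk m A).card := by exact_mod_cast (sk_nonempty hA).card_pos
  by_cases hsmall : (A.card : ℝ) ≤ 16
  · refine le_trans ?_ (hsk1.trans (le_max_left _ _))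
    calc min ((c / 2) ^ m / 2 ^ m) (1 / 16 ^ m) * (A.card : ℝ) ^ ((m : ℝ) - ε)
        ≤ 1 / 16 ^ m * (16 : ℝ) ^ m := by
          refine mul_le_mul (min_le_right _ _) ?_ (by positivity) (by positivity)
          refine (Real.rpow_le_rpow_of_exponent_le hN1 (by linarith : (m : ℝ) - ε ≤ m)).trans ?_
          rw [Real.rpow_natCast]
          exact pow_le_pow_left₀ hN0.le hsmall m
      _ = 1 := by field_simp
  push Not at hsmall
  have hδ : η / (2 * m) ≤ 1 / 2 := by
    rw [div_le_div_iff₀ (by positivity) (by norm_num)]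
    nlinarith
  have hhalf : (A.card : ℝ) ^ ((1 : ℝ) / 2) ≤ A'.card :=
    (Real.rpow_le_rpow_of_exponent_le hN1 (by linarith)).trans hbig
  have hA'4 : (4 : ℝ) ≤ A'.card := by
    refine le_trans ?_ hhalf
    have h1 : (16 : ℝ) ^ ((1 : ℝ) / 2) ≤ (A.card : ℝ) ^ ((1 : ℝ) / 2) :=
      Real.rpow_le_rpow (by norm_num) hsmall.le (by norm_num)
    have h2 : (16 : ℝ) ^ ((1 : ℝ) / 2) = 4 := by
      rw [show (16 : ℝ) = 4 ^ (2 : ℝ) by norm_num, ← Real.rpow_mul (by norm_num)]
      norm_num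
    linarith
  obtain ⟨A2, hA2⟩ : ∃ A2 : Finset ℤ, A2 = A'.erase 0 := ⟨_, rfl⟩
  have hA2c : (A'.card : ℝ) ≤ A2.card + 1 := by
    have h1 := Finset.pred_card_le_card_erase (s := A') (a := (0 : ℤ))
    rw [← hA2] at h1
    have h2 : A'.card ≤ A2.card + 1 := by omega
    exact_mod_cast h2
  have hA2half : (A'.card : ℝ) / 2 ≤ A2.card := by linarith
  have hA22 : (2 : ℝ) ≤ A2.card := by linarith
  have hA2ne : A2.Nonempty := by
    rw [← card_pos]
    have : (0 : ℝ) < A2.card := by linarith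
    exact_mod_cast this
  have hA2A' : A2 ⊆ A' := by rw [hA2]; exact erase_subset _ _
  have h02 : (0 : ℤ) ∉ A2 := by rw [hA2]; exact notMem_erase _ _
  have hN4 : (A.card : ℝ) ≤ (A2.card : ℝ) ^ (4 : ℝ) := by
    have h1 : (A.card : ℝ) ≤ (A'.card : ℝ) ^ 2 := by
      have h2 := pow_le_pow_left₀ (by positivity) hhalf 2
      rw [← Real.rpow_natCast, ← Real.rpow_mul hN0.le] at h2
      norm_num at h2
      exact h2
    have h3 : (A'.card : ℝ) ≤ (A2.card : ℝ) ^ 2 := by nlinarith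
    have h4 : (A'.card : ℝ) ^ 2 ≤ ((A2.card : ℝ) ^ 2) ^ 2 := pow_le_pow_left₀ (by positivity) h3 2
    rw [show (4 : ℝ) = ((4 : ℕ) : ℝ) by norm_num, Real.rpow_natCast]
    calc (A.card : ℝ) ≤ (A'.card : ℝ) ^ 2 := h1
      _ ≤ ((A2.card : ℝ) ^ 2) ^ 2 := h4
      _ = (A2.card : ℝ) ^ 4 := by ring
  have hhB' : (h : ℝ) ≤ (A2.card : ℝ) ^ (4 * B) := by
    rw [Real.rpow_mul (by positivity)]
    exact hhB.trans (Real.rpow_le_rpow hN0.le hN4 hB)
  obtain ⟨A1, hA1, hadd, hmul, _⟩ := hdec A2 hA2ne h02 h hh hhB' lam hlam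
    (fun a ha => hSh a (hA2A' ha))
  obtain ⟨n, hn⟩ : ∃ n : ℝ, n = A2.card := ⟨_, rfl⟩
  rw [← hn] at hadd hmul hA22 hA2half
  have hn1 : 1 ≤ n := by linarith
  have hn0 : 0 < n := by linarith
  obtain ⟨e, he⟩ : ∃ e : ℝ, e = η / (2 * m ^ 2) := ⟨_, rfl⟩
  rw [← he] at hadd hmul
  have he0 : 0 < e := by rw [he]; positivity
  have hem : e * (m : ℝ) ^ 2 = η / 2 := by
    rw [he]
    field_simp
  have hmax : c ^ m * n ^ (-(e * (m : ℝ) ^ 2)) * (n / 2) ^ m ≤
      max ((sk m A).card : ℝ) ((pk m A).card : ℝ) := by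
    rcases le_total (n / 2) (A1.card : ℝ) with hcase | hcase
    · refine le_trans ?_ (le_max_left _ _)
      have hA1ne : A1.Nonempty := by
        rw [← card_pos]
        have : (0 : ℝ) < A1.card := by linarith
        exact_mod_cast this
      have hA1n : (A1.card : ℝ) ≤ n := by
        rw [hn]
        exact_mod_cast card_le_card hA1
      have h1 := iterate (f := fun j => ((sk j A1).card : ℝ)) hc hn1
        (Nat.cast_nonneg A1.card) he0
        (by exact_mod_cast (sk_nonempty hA1ne).card_pos)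
        (fun j => ⟨by exact_mod_cast (sk_nonempty hA1ne).card_pos, by
          have h2 : ((sk j A1).card : ℝ) ≤ (A1.card : ℝ) ^ j := by
            exact_mod_cast card_sk_le j A1
          exact h2.trans (pow_le_pow_left₀ (by positivity) hA1n j)⟩)
        (fun j => (hadd (sk j A1) (sk_nonempty hA1ne)).trans (by
          exact_mod_cast card_le_card (add_sk j A1))) m
      refine le_trans ?_ (h1.trans ?_)
      · exact mul_le_mul_of_nonneg_left (pow_le_pow_left₀ (by positivity) hcase m)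
          (by positivity)
      · exact_mod_cast card_le_card (sk_mono ((hA1.trans hA2A').trans hAA))
    · refine le_trans ?_ (le_max_right _ _)
      obtain ⟨A3, hA3⟩ : ∃ A3 : Finset ℤ, A3 = A2 \ A1 := ⟨_, rfl⟩
      rw [← hA3] at hmul
      have hA3A : A3 ⊆ A2 := by rw [hA3]; exact sdiff_subset
      have hA3c : n / 2 ≤ (A3.card : ℝ) := by
        have h1 : (A3.card : ℝ) = n - A1.card := by
          rw [hA3, card_sdiff_of_subset hA1, Nat.cast_sub (card_le_card hA1), hn]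
        rw [h1]
        linarith
      have hA3ne : A3.Nonempty := by
        rw [← card_pos]
        have : (0 : ℝ) < A3.card := by linarith
        exact_mod_cast this
      have h03 : (0 : ℤ) ∉ A3 := fun h => h02 (hA3A h)
      have hpk0 : ∀ j, (0 : ℤ) ∉ pk j A3 := by
        intro j h
        obtain ⟨f, hf, hf0⟩ := mem_image.1 h
        rw [Fintype.mem_piFinset] at hf
        obtain ⟨i, _, hi⟩ := prod_eq_zero_iff.1 hf0
        exact h03 (hi ▸ hf i)
      have hA3n : (A3.card : ℝ) ≤ n := by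
        rw [hn]
        exact_mod_cast card_le_card hA3A
      have h1 := iterate (f := fun j => ((pk j A3).card : ℝ)) hc hn1
        (Nat.cast_nonneg A3.card) he0
        (by exact_mod_cast (pk_nonempty hA3ne).card_pos)
        (fun j => ⟨by exact_mod_cast (pk_nonempty hA3ne).card_pos, by
          have h2 : ((pk j A3).card : ℝ) ≤ (A3.card : ℝ) ^ j := by
            exact_mod_cast card_pk_le' j A3
          exact h2.trans (pow_le_pow_left₀ (by positivity) hA3n j)⟩)
        (fun j => by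
          have h2 := hmul (ci (pk j A3)) ((pk_nonempty hA3ne).image _) (ci_zero (hpk0 j))
          rw [card_ci] at h2
          refine h2.trans ?_
          have h3 := card_le_card (AB_pk j A3)
          rw [card_ci] at h3
          exact_mod_cast h3) m
      refine le_trans ?_ (h1.trans ?_)
      · exact mul_le_mul_of_nonneg_left (pow_le_pow_left₀ (by positivity) hA3c m)
          (by positivity)
      · exact_mod_cast card_le_card (pk_mono ((hA3A.trans hA2A').trans hAA))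
  refine le_trans ?_ hmax
  have hnN : (A.card : ℝ) ^ (1 - η / (2 * m)) / 2 ≤ n := by linarith
  have hexp0 : 0 ≤ (m : ℝ) - η / 2 := by linarith
  have h1 : c ^ m * n ^ (-(e * (m : ℝ) ^ 2)) * (n / 2) ^ m =
      (c / 2) ^ m * n ^ ((m : ℝ) - η / 2) := by
    rw [hem, div_pow, div_pow, sub_eq_neg_add, Real.rpow_add hn0, Real.rpow_natCast]
    ring
  rw [h1]
  have h2 : (A.card : ℝ) ^ ((m : ℝ) - ε) / 2 ^ m ≤ n ^ ((m : ℝ) - η / 2) := by
    refine le_trans ?_ (Real.rpow_le_rpow (by positivity) hnN hexp0)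
    rw [Real.div_rpow (by positivity) (by norm_num), ← Real.rpow_mul hN0.le]
    refine div_le_div₀ (by positivity) ?_ (by positivity) ?_
    · refine Real.rpow_le_rpow_of_exponent_le hN1 ?_
      have h3 : (1 - η / (2 * m)) * ((m : ℝ) - η / 2) =
          (m : ℝ) - η / 2 - η / 2 + η / (2 * m) * (η / 2) := by
        field_simp
        ring
      rw [h3]
      have h4 : 0 ≤ η / (2 * m) * (η / 2) := by positivity
      linarith
    · rw [← Real.rpow_natCast]
      exact Real.rpow_le_rpow_of_exponent_le (by norm_num) (by linarith)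
  calc min ((c / 2) ^ m / 2 ^ m) (1 / 16 ^ m) * (A.card : ℝ) ^ ((m : ℝ) - ε)
      ≤ (c / 2) ^ m / 2 ^ m * (A.card : ℝ) ^ ((m : ℝ) - ε) :=
        mul_le_mul_of_nonneg_right (min_le_left _ _) (by positivity)
    _ = (c / 2) ^ m * ((A.card : ℝ) ^ ((m : ℝ) - ε) / 2 ^ m) := by ring
    _ ≤ (c / 2) ^ m * n ^ ((m : ℝ) - η / 2) := mul_le_mul_of_nonneg_left h2 (by positivity)

end Pool.Agent.K3h55.DU
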